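import Pool.Agent.H61.GLH.Equiv
import Pool.Agent.H23.GLH.Instance

/-! Primitive Dirichlet `L`-functions satisfy the abstract hypotheses. -/

set_option autoImplicit false

open Complex Set Filter Topology Metric

namespace Pool.Agent.H61.GLH

open Pool.Agent.H23.GLH DirichletCharacter

/-- The sum of `n^(-3/2)`. -/
noncomputable def Z32 : ℝ := ∑' n : ℕ, 1 / (n : ℝ) ^ (3 / 2 : ℝ)

lemma summable_Z32 : Summable fun n : ℕ => 1 / (n : ℝ) ^ (3 / 2 : ℝ) :=
  Real.summable_one_div_nat_rpow.mpr (by norm_num)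

lemma Z32_nonneg : 0 ≤ Z32 := tsum_nonneg fun n => by positivity

lemma norm_term_le {N : ℕ} (χ : DirichletCharacter ℂ N) {s : ℂ} {σ : ℝ} (hσ : 0 < σ)
    (hs : σ ≤ s.re) (n : ℕ) :
    ‖LSeries.term (fun n => χ (n : ZMod N)) s n‖ ≤ 1 / (n : ℝ) ^ σ := by
  rcases Nat.eq_zero_or_pos n with rfl | hn
  · simp [hσ.ne']
  · rw [LSeries.norm_term_eq, if_neg hn.ne']
    have h1 : ‖χ (n : ZMod N)‖ ≤ 1 := DirichletCharacter.norm_le_one χ _
    have hn1 : (1:ℝ) ≤ n := by exact_mod_cast hn
    have h3 : (n : ℝ) ^ σ ≤ (n : ℝ) ^ s.re := Real.rpow_le_rpow_of_exponent_le hn1 hs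
    have h4 : 0 < (n : ℝ) ^ σ := Real.rpow_pos_of_pos (by linarith) _
    gcongr

lemma L_far (π : PrimChar) {s : ℂ} (hs : 3 / 2 ≤ s.re) : ‖π.L s‖ ≤ Z32 := by
  have := π.q_ne
  have h1 : (1:ℝ) < s.re := by linarith
  show ‖LFunction π.χ s‖ ≤ _
  rw [DirichletCharacter.LFunction_eq_LSeries π.χ h1, LSeries]
  exact tsum_of_norm_bounded summable_Z32.hasSum
    (fun n => norm_term_le π.χ (by norm_num) hs n)

lemma L_near1 (π : PrimChar) {s : ℂ} (hs : 2 < s.re) : ‖π.L s - 1‖ ≤ 2 / 3 := by
  have := π.q_ne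
  have h1 : (1:ℝ) < s.re := by linarith
  show ‖LFunction π.χ s - 1‖ ≤ _
  rw [DirichletCharacter.LFunction_eq_LSeries π.χ h1, LSeries]
  have hsum : Summable (LSeries.term (fun n => π.χ (n : ZMod π.q)) s) :=
    DirichletCharacter.LSeriesSummable_of_one_lt_re π.χ h1
  have h2 := hsum.tsum_eq_zero_add
  have h3 := ((summable_nat_add_iff 1).mpr hsum).tsum_eq_zero_add
  have e0 : LSeries.term (fun n => π.χ (n : ZMod π.q)) s 0 = 0 := by simp
  have e1 : LSeries.term (fun n => π.χ (n : ZMod π.q)) s (0 + 1) = 1 := by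
    rw [LSeries.term_of_ne_zero (by norm_num)]
    simp
  rw [e0, zero_add] at h2
  rw [e1] at h3
  rw [h2, h3, add_sub_cancel_left]
  have hz := hasSum_zeta_two
  have hz1 : HasSum (fun n : ℕ => 1 / ((n + 2 : ℕ) : ℝ) ^ 2) (Real.pi ^ 2 / 6 - 1) := by
    have h4 := (hasSum_nat_add_iff' (f := fun n : ℕ => 1 / (n : ℝ) ^ 2) 2).mpr hz
    have : (∑ i ∈ Finset.range 2, (fun n : ℕ => 1 / (n : ℝ) ^ 2) i) = 1 := by
      simp [Finset.sum_range_succ]
    rw [this] at h4
    exact h4
  have hb : ‖∑' n : ℕ, LSeries.term (fun n => π.χ (n : ZMod π.q)) s (n + 1 + 1)‖ ≤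
      Real.pi ^ 2 / 6 - 1 := by
    apply tsum_of_norm_bounded hz1
    intro n
    have h5 := norm_term_le π.χ (σ := 2) (by norm_num) hs.le (n + 1 + 1)
    rw [Real.rpow_two] at h5
    exact h5
  refine hb.trans ?_
  have := Real.pi_lt_d2
  have := Real.pi_pos
  nlinarith

lemma L_nz (π : PrimChar) {s : ℂ} (hs : 1 < s.re) : π.L s ≠ 0 := by
  have := π.q_ne
  exact DirichletCharacter.LFunction_ne_zero_of_one_le_re π.χ
    (Or.inr (by rintro rfl; simp at hs)) hs.le

lemma C_of_one (π : PrimChar) (h : π.q = 1) : π.C = 1 := by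
  classical
  obtain ⟨q, hq, χ, hp⟩ := π
  simp only at h
  subst h
  have he : χ.Even := by
    show χ (-1) = 1
    have : (-1 : ZMod 1) = 1 := Subsingleton.elim _ _
    rw [this, map_one]
  simp [PrimChar.C, he]

open scoped Classical in
/-- `(s - 1) L(s, π)` with the removable singularity removed. -/
noncomputable def phi (π : PrimChar) (s : ℂ) : ℂ :=
  if π.q = 1 then (s + 1) * Fz s else (s - 1) * π.L s

lemma zeta_eq_Fz {s : ℂ} (hs : 0 < s.re) (hs1 : s ≠ 1) :
    riemannZeta s = Fz s * ((s + 1) / (s - 1)) := by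
  rw [Fz_eq hs hs1]
  have h2 := add_one_ne hs
  have h3 : s - 1 ≠ 0 := sub_ne_zero.mpr hs1
  field_simp

theorem good (π : PrimChar) :
    Good (AΓ + Z32 + 256) 2 π.C π.L (phi π) where
  hq := π.one_le_C
  diff := by
    intro s hs
    have := π.q_ne
    apply DirichletCharacter.differentiableAt_LFunction
    rcases hs with hs | hs
    · exact Or.inl hs
    · right
      apply π.χ_ne_one
      intro h
      rw [C_of_one π h] at hs
      exact lt_irrefl _ hs
  φdiff := by
    intro s hs
    by_cases h : π.q = 1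
    · have e : phi π = fun s => (s + 1) * Fz s := by
        funext s; simp [phi, h]
      rw [e]
      have h1 : DifferentiableAt ℂ Fz s := (differentiableOn_Fz s hs).differentiableAt
        ((isOpen_lt continuous_const Complex.continuous_re).mem_nhds hs)
      exact (differentiableAt_id.add_const 1).mul h1
    · have e : phi π = fun s => (s - 1) * π.L s := by
        funext s; simp [phi, h]
      rw [e]
      have := π.q_ne
      have h1 : DifferentiableAt ℂ π.L s :=
        (differentiable_LFunction (π.χ_ne_one h)).differentiableAt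
      exact (differentiableAt_id.sub_const 1).mul h1
  φeq := by
    intro s hs hs1
    by_cases h : π.q = 1
    · have e : phi π s = (s + 1) * Fz s := by simp [phi, h]
      rw [e, π.L_of_one h, zeta_eq_Fz hs hs1]
      have h3 : s - 1 ≠ 0 := sub_ne_zero.mpr hs1
      field_simp
    · simp [phi, h]
  φbd := by
    intro s hs hs3
    have hA := AΓ_pos
    have hZ := Z32_nonneg
    have hC := π.one_le_C
    have him := abs_nonneg s.im
    have hX : 1 + |s.im| ≤ π.C * (1 + |s.im|) := by nlinarith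
    rw [Real.rpow_two]
    by_cases h : π.q = 1
    · have e : phi π s = (s + 1) * Fz s := by simp [phi, h]
      rw [e, norm_mul]
      have h1 := norm_Fz_le hs
      have h2 : ‖s + 1‖ ≤ 4 * (1 + |s.im|) := by
        refine (Complex.norm_le_abs_re_add_abs_im _).trans ?_
        simp only [add_re, one_re, add_im, one_im, add_zero]
        rw [abs_of_pos (by linarith)]
        linarith
      calc ‖s + 1‖ * ‖Fz s‖ ≤ (4 * (1 + |s.im|)) * (16 * (1 + |s.im|)) := by gcongr
        _ = 64 * (1 + |s.im|) ^ 2 := by ring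
        _ ≤ (AΓ + Z32 + 256) * (π.C * (1 + |s.im|)) ^ 2 := by
          gcongr
          linarith
    · have e : phi π s = (s - 1) * π.L s := by simp [phi, h]
      rw [e, norm_mul]
      have := π.q_ne
      have h1 := Pool.Agent.Ratios.norm_LFunction_le π.χ (π.χ_ne_one h) s (by linarith)
      have h2 := norm_div_re_le hs
      have h3 := π.q_le_C
      have h4 := π.one_le_q
      have h5 : ‖s - 1‖ ≤ 4 * (1 + |s.im|) := by
        refine (Complex.norm_le_abs_re_add_abs_im _).trans ?_
        simp only [sub_re, one_re, sub_im, one_im, sub_zero]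
        have : |s.re - 1| ≤ 2 := by rw [abs_le]; constructor <;> linarith
        linarith
      have h6 : ‖π.L s‖ ≤ π.C * (4 * (1 + |s.im|)) := by
        calc ‖π.L s‖ ≤ π.q * ‖s‖ / s.re := h1
          _ = π.q * (‖s‖ / s.re) := by ring
          _ ≤ π.C * (1 + 4 * |s.im|) := by gcongr
          _ ≤ π.C * (4 * (1 + |s.im|)) := by gcongr; linarith
      calc ‖s - 1‖ * ‖π.L s‖ ≤ (4 * (1 + |s.im|)) * (π.C * (4 * (1 + |s.im|))) := by gcongr
        _ ≤ (4 * (π.C * (1 + |s.im|))) * (π.C * (4 * (1 + |s.im|))) := by gcongr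
        _ = 16 * (π.C * (1 + |s.im|)) ^ 2 := by ring
        _ ≤ (AΓ + Z32 + 256) * (π.C * (1 + |s.im|)) ^ 2 := by
          gcongr
          linarith
  bd := by
    intro s hs hs3 hor
    have hA := AΓ_pos
    have hZ := Z32_nonneg
    have hC := π.one_le_C
    have him := abs_nonneg s.im
    have hX : 1 ≤ π.C * (1 + |s.im|) := by nlinarith
    have hX2 : π.C * (1 + |s.im|) ≤ (π.C * (1 + |s.im|)) ^ 2 := by nlinarith
    rw [Real.rpow_two]
    by_cases h : π.q = 1
    · have hC1 := C_of_one π h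
      have h1s : 1 ≤ |s.im| := by
        rcases hor with h5 | h5
        · rw [hC1] at h5; exact absurd h5 (lt_irrefl _)
        · exact h5
      have hs1 : s ≠ 1 := by
        rintro rfl
        simp at h1s
        linarith
      rw [π.L_of_one h, zeta_eq_Fz (by linarith) hs1, norm_mul, norm_div]
      have h1 := norm_Fz_le hs
      have h6 : 1 ≤ ‖s - 1‖ := by
        have := Complex.abs_im_le_norm (s - 1)
        simp at this
        linarith
      have h7 : ‖s + 1‖ ≤ 3 * ‖s - 1‖ := by
        have := norm_add_le (s - 1) 2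
        have e : s - 1 + 2 = s + 1 := by ring
        rw [e] at this
        have e2 : ‖(2 : ℂ)‖ = 2 := by simp
        rw [e2] at this
        linarith
      have h8 : ‖s + 1‖ / ‖s - 1‖ ≤ 3 := by
        rw [div_le_iff₀ (by linarith)]; exact h7
      calc ‖Fz s‖ * (‖s + 1‖ / ‖s - 1‖) ≤ (16 * (1 + |s.im|)) * 3 := by gcongr
        _ = 48 * (π.C * (1 + |s.im|)) := by rw [hC1]; ring
        _ ≤ 48 * (π.C * (1 + |s.im|)) ^ 2 := by gcongr
        _ ≤ (AΓ + Z32 + 256) * (π.C * (1 + |s.im|)) ^ 2 := by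
          gcongr
          linarith
    · haveI := π.q_ne
      have h1 := Pool.Agent.Ratios.norm_LFunction_le π.χ (π.χ_ne_one h) s (by linarith)
      have h2 := norm_div_re_le hs
      have h3 := π.q_le_C
      have h4 := π.one_le_q
      calc ‖π.L s‖ ≤ π.q * ‖s‖ / s.re := h1
        _ = π.q * (‖s‖ / s.re) := by ring
        _ ≤ π.C * (1 + 4 * |s.im|) := by gcongr
        _ ≤ π.C * (4 * (1 + |s.im|)) := by gcongr; linarith
        _ = 4 * (π.C * (1 + |s.im|)) := by ring
        _ ≤ 4 * (π.C * (1 + |s.im|)) ^ 2 := by gcongr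
        _ ≤ (AΓ + Z32 + 256) * (π.C * (1 + |s.im|)) ^ 2 := by
          gcongr
          linarith
  half := by
    intro s hs
    have hA := AΓ_pos
    have hZ := Z32_nonneg
    have hC := π.one_le_C
    have him := abs_nonneg s.im
    have hX : 1 ≤ π.C * (1 + |s.im|) := by nlinarith
    have hX2 : π.C * (1 + |s.im|) ≤ (π.C * (1 + |s.im|)) ^ 2 := by nlinarith
    rw [Real.rpow_two]
    by_cases h : π.q = 1
    · have hC1 := C_of_one π h
      have hs1 : s ≠ 1 := by
        rintro rfl
        norm_num at hs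
      rw [π.L_of_one h, zeta_eq_Fz (by linarith) hs1, norm_mul]
      have h1 := norm_Fz_le (s := s) (by linarith)
      have h6 := (norm_ratio_le (s := s) (by linarith) (by linarith)).2
      have h3 : s - 1 ≠ 0 := sub_ne_zero.mpr hs1
      have h2 : s + 1 ≠ 0 := add_one_ne (by linarith)
      have h8 : ‖(s + 1) / (s - 1)‖ ≤ 7 := by
        have e : (s + 1) / (s - 1) = ((s - 1) / (s + 1))⁻¹ := by rw [inv_div]
        rw [e, norm_inv, inv_le_comm₀ (by linarith) (by norm_num)]
        linarith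
      calc ‖Fz s‖ * ‖(s + 1) / (s - 1)‖ ≤ (16 * (1 + |s.im|)) * 7 := by gcongr
        _ = 112 * (π.C * (1 + |s.im|)) := by rw [hC1]; ring
        _ ≤ 112 * (π.C * (1 + |s.im|)) ^ 2 := by gcongr
        _ ≤ (AΓ + Z32 + 256) * (π.C * (1 + |s.im|)) ^ 2 := by
          gcongr
          linarith
    · haveI := π.q_ne
      have h1 := Pool.Agent.Ratios.norm_LFunction_le π.χ (π.χ_ne_one h) s (by linarith)
      have h2 := norm_div_re_le (s := s) (by linarith)
      have h3 := π.q_le_C
      have h4 := π.one_le_q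
      calc ‖π.L s‖ ≤ π.q * ‖s‖ / s.re := h1
        _ = π.q * (‖s‖ / s.re) := by ring
        _ ≤ π.C * (1 + 4 * |s.im|) := by gcongr
        _ ≤ π.C * (4 * (1 + |s.im|)) := by gcongr; linarith
        _ = 4 * (π.C * (1 + |s.im|)) := by ring
        _ ≤ 4 * (π.C * (1 + |s.im|)) ^ 2 := by gcongr
        _ ≤ (AΓ + Z32 + 256) * (π.C * (1 + |s.im|)) ^ 2 := by
          gcongr
          linarith
  fe := by
    intro x u hx hx4
    have hA := AΓ_pos
    have hZ := Z32_nonneg
    have hC := π.one_le_C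
    have him := abs_nonneg u
    have hX : 1 ≤ π.C * (1 + |u|) := by nlinarith
    rcases eq_or_lt_of_le hx with h | h
    · rw [← h]
      simp only [ofReal_zero, sub_zero, add_zero, Real.rpow_zero, mul_one]
      have := norm_nonneg (π.L (1 / 2 + u * I))
      nlinarith
    · refine (π.functional x u h hx4).trans ?_
      gcongr
      linarith
  far := by
    intro s hs
    have hA := AΓ_pos
    have := L_far π hs
    linarith
  near1 := fun s hs => L_near1 π hs
  nz := fun s hs => L_nz π hs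

end Pool.Agent.H61.GLH
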