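import Pool.Agent.H61.GLH.Abs

/-! Blaschke factors of the strip `|Re z - 1/2| < 1/4` and the resulting bound for an analytic
function with many zeros near the critical line. -/

set_option autoImplicit false

open Complex Set Filter Topology Metric

namespace Pool.Agent.H61.GLH

lemma norm_sin_sq (z : ℂ) : ‖Complex.sin z‖ ^ 2 = Real.sin z.re ^ 2 + Real.sinh z.im ^ 2 := by
  have h : Complex.sin z = ((Real.sin z.re * Real.cosh z.im : ℝ) : ℂ) +
      ((Real.cos z.re * Real.sinh z.im : ℝ) : ℂ) * I := by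
    rw [Complex.sin_eq]; push_cast; ring
  rw [← Complex.normSq_eq_norm_sq, h, Complex.normSq_add_mul_I]
  have h1 := Real.sin_sq_add_cos_sq z.re
  have h2 := Real.cosh_sq z.im
  linear_combination (Real.sin z.re ^ 2) * h2 + (Real.sinh z.im ^ 2) * h1

lemma norm_cos_sq (z : ℂ) : ‖Complex.cos z‖ ^ 2 = Real.cos z.re ^ 2 + Real.sinh z.im ^ 2 := by
  have h : Complex.cos z = ((Real.cos z.re * Real.cosh z.im : ℝ) : ℂ) +
      ((-(Real.sin z.re * Real.sinh z.im) : ℝ) : ℂ) * I := by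
    rw [Complex.cos_eq]; push_cast; ring
  rw [← Complex.normSq_eq_norm_sq, h, Complex.normSq_add_mul_I]
  have h1 := Real.sin_sq_add_cos_sq z.re
  have h2 := Real.cosh_sq z.im
  linear_combination (Real.cos z.re ^ 2) * h2 + (Real.sinh z.im ^ 2) * h1

/-- Numerator of the Blaschke factor with zero `w`. -/
noncomputable def sn (w z : ℂ) : ℂ := Complex.sin (Real.pi * (z - w))

/-- Denominator of the Blaschke factor with zero `w`. -/
noncomputable def cs (w z : ℂ) : ℂ := Complex.cos (Real.pi * (z - 1 + (starRingEnd ℂ) w))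

lemma norm_sn_sq (w z : ℂ) : ‖sn w z‖ ^ 2 =
    Real.sin (Real.pi * (z.re - w.re)) ^ 2 + Real.sinh (Real.pi * (z.im - w.im)) ^ 2 := by
  rw [sn, norm_sin_sq, Complex.re_ofReal_mul, Complex.im_ofReal_mul, Complex.sub_re,
    Complex.sub_im]

lemma norm_cs_sq (w z : ℂ) : ‖cs w z‖ ^ 2 =
    Real.cos (Real.pi * (z.re - 1 + w.re)) ^ 2 + Real.sinh (Real.pi * (z.im - w.im)) ^ 2 := by
  rw [cs, norm_cos_sq, Complex.re_ofReal_mul, Complex.im_ofReal_mul]
  simp [sub_eq_add_neg]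

lemma edge_eq {w z : ℂ} (hz : z.re = 1 / 4 ∨ z.re = 3 / 4) : ‖sn w z‖ = ‖cs w z‖ := by
  have h : ‖sn w z‖ ^ 2 = ‖cs w z‖ ^ 2 := by
    rw [norm_sn_sq, norm_cs_sq]
    congr 1
    rcases hz with hz | hz
    · have e : Real.pi * (z.re - 1 + w.re) = -(Real.pi / 2 + Real.pi * (z.re - w.re)) := by
        rw [hz]; ring
      rw [e, Real.cos_neg, Real.cos_add, Real.cos_pi_div_two, Real.sin_pi_div_two]
      ring
    · have e : Real.pi * (z.re - 1 + w.re) = Real.pi / 2 - Real.pi * (z.re - w.re) := by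
        rw [hz]; ring
      rw [e, Real.cos_pi_div_two_sub]
  exact (pow_left_inj₀ (norm_nonneg _) (norm_nonneg _) two_ne_zero).mp h

lemma cs_ne {w z : ℂ} (hw : |w.re - 1 / 2| < 1 / 4) (hz : |z.re - 1 / 2| ≤ 1 / 4) :
    cs w z ≠ 0 := by
  intro h0
  have h1 := norm_cs_sq w z
  rw [h0, norm_zero] at h1
  rw [abs_lt] at hw
  rw [abs_le] at hz
  have hπ := Real.pi_pos
  have h2 : 0 < Real.cos (Real.pi * (z.re - 1 + w.re)) := by
    apply Real.cos_pos_of_mem_Ioo
    constructor <;> nlinarith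
  have h3 := sq_nonneg (Real.sinh (Real.pi * (z.im - w.im)))
  have h4 : 0 < Real.cos (Real.pi * (z.re - 1 + w.re)) ^ 2 := by positivity
  norm_num at h1
  linarith

lemma sn_ne {w z : ℂ} (hw : |w.re - 1 / 2| < 1 / 4) (hz : |z.re - 1 / 2| ≤ 1 / 4) (hzw : z ≠ w) :
    sn w z ≠ 0 := by
  intro h0
  have h1 := norm_sn_sq w z
  rw [h0, norm_zero] at h1
  rw [abs_lt] at hw
  rw [abs_le] at hz
  have hπ := Real.pi_pos
  have h3 := sq_nonneg (Real.sinh (Real.pi * (z.im - w.im)))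
  have h4 := sq_nonneg (Real.sin (Real.pi * (z.re - w.re)))
  norm_num at h1
  have h5 : Real.sinh (Real.pi * (z.im - w.im)) = 0 := by
    have : Real.sinh (Real.pi * (z.im - w.im)) ^ 2 = 0 := by linarith
    exact pow_eq_zero_iff two_ne_zero |>.mp this
  have h6 : Real.sin (Real.pi * (z.re - w.re)) = 0 := by
    have : Real.sin (Real.pi * (z.re - w.re)) ^ 2 = 0 := by linarith
    exact pow_eq_zero_iff two_ne_zero |>.mp this
  rw [Real.sinh_eq_zero] at h5
  have h7 : z.im = w.im := by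
    rcases mul_eq_zero.mp h5 with h | h
    · exact absurd h hπ.ne'
    · linarith
  have h8 : Real.pi * (z.re - w.re) = 0 :=
    (Real.sin_eq_zero_iff_of_lt_of_lt (by nlinarith) (by nlinarith)).mp h6
  have h9 : z.re = w.re := by
    rcases mul_eq_zero.mp h8 with h | h
    · exact absurd h hπ.ne'
    · linarith
  exact hzw (Complex.ext h9 h7)

/-- Value of the Blaschke factor on the critical line. -/
lemma centre_le {w z : ℂ} {δ V e : ℝ} (hz : z.re = 1 / 2) (hδ : δ < 1 / 4)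
    (hw : |w.re - 1 / 2| ≤ δ) (hV : |z.im - w.im| ≤ V) (he : 0 ≤ e)
    (hc : 1 ≤ Real.cosh e ^ 2 * Real.cos (2 * Real.pi * δ)) :
    ‖sn w z‖ ≤ Real.tanh (Real.pi * V + e) * ‖cs w z‖ := by
  have hπ := Real.pi_pos
  have hV0 : 0 ≤ V := (abs_nonneg _).trans hV
  have hδ0 : 0 ≤ δ := (abs_nonneg _).trans hw
  set y := Real.pi * V + e with hy
  have hy0 : 0 ≤ y := by positivity
  have hT0 : 0 ≤ Real.tanh y := by
    rw [Real.tanh_eq_sinh_div_cosh]
    have := Real.sinh_nonneg_iff.mpr hy0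
    have := Real.cosh_pos y
    positivity
  set ξ := w.re - 1 / 2 with hξ
  have e1 : z.re - w.re = -ξ := by rw [hz, hξ]; ring
  have e2 : z.re - 1 + w.re = ξ := by rw [hz, hξ]; ring
  have h1 := norm_sn_sq w z
  have h2 := norm_cs_sq w z
  rw [e1] at h1
  rw [e2] at h2
  rw [mul_neg, Real.sin_neg, neg_sq] at h1
  set v := z.im - w.im with hv
  set sh := Real.sinh (Real.pi * v) with hsh
  have hsc := Real.sin_sq_add_cos_sq (Real.pi * ξ)
  -- the difference
  have hd : ‖cs w z‖ ^ 2 - ‖sn w z‖ ^ 2 = Real.cos (2 * (Real.pi * ξ)) := by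
    rw [h1, h2, Real.cos_two_mul]; linarith
  have hd1 : Real.cos (2 * Real.pi * δ) ≤ Real.cos (2 * (Real.pi * ξ)) := by
    rw [← Real.cos_abs (2 * (Real.pi * ξ))]
    have h3 : |2 * (Real.pi * ξ)| = 2 * Real.pi * |ξ| := by
      rw [abs_mul, abs_mul, abs_of_pos hπ, abs_of_pos (by norm_num : (0:ℝ) < 2)]; ring
    rw [h3]
    apply Real.cos_le_cos_of_nonneg_of_le_pi (by positivity) (by nlinarith)
    gcongr
  have hcosδ : 0 < Real.cos (2 * Real.pi * δ) := by
    apply Real.cos_pos_of_mem_Ioo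
    constructor <;> nlinarith
  have hC2 : ‖cs w z‖ ^ 2 ≤ Real.cosh (Real.pi * V) ^ 2 := by
    rw [h2]
    have h3 := Real.cosh_sq (Real.pi * v)
    have h4 : Real.cosh (Real.pi * v) ≤ Real.cosh (Real.pi * V) := by
      rw [Real.cosh_le_cosh, abs_mul, abs_mul, abs_of_pos hπ, abs_of_nonneg hV0]
      gcongr
    have h5 : Real.cosh (Real.pi * v) ^ 2 ≤ Real.cosh (Real.pi * V) ^ 2 :=
      pow_le_pow_left₀ (Real.cosh_pos _).le h4 2
    have h6 : Real.cos (Real.pi * ξ) ^ 2 ≤ 1 := by nlinarith [sq_nonneg (Real.sin (Real.pi * ξ))]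
    rw [hsh]
    linarith
  have hy1 : Real.cosh (Real.pi * V) * Real.cosh e ≤ Real.cosh y := by
    rw [hy, Real.cosh_add]
    have h3 := Real.sinh_nonneg_iff.mpr (show 0 ≤ Real.pi * V by positivity)
    have h4 := Real.sinh_nonneg_iff.mpr he
    have : 0 ≤ Real.sinh (Real.pi * V) * Real.sinh e := by positivity
    linarith
  have hcy := Real.cosh_pos y
  have hkey : ‖cs w z‖ ^ 2 ≤ Real.cosh y ^ 2 * (‖cs w z‖ ^ 2 - ‖sn w z‖ ^ 2) := by
    rw [hd]
    have h3 : (Real.cosh (Real.pi * V) * Real.cosh e) ^ 2 ≤ Real.cosh y ^ 2 := by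
      apply pow_le_pow_left₀ _ hy1
      have := Real.cosh_pos (Real.pi * V)
      have := Real.cosh_pos e
      positivity
    calc ‖cs w z‖ ^ 2 ≤ Real.cosh (Real.pi * V) ^ 2 * 1 := by rw [mul_one]; exact hC2
      _ ≤ Real.cosh (Real.pi * V) ^ 2 * (Real.cosh e ^ 2 * Real.cos (2 * Real.pi * δ)) := by gcongr
      _ = (Real.cosh (Real.pi * V) * Real.cosh e) ^ 2 * Real.cos (2 * Real.pi * δ) := by ring
      _ ≤ Real.cosh y ^ 2 * Real.cos (2 * (Real.pi * ξ)) := by gcongr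
  have hfin : ‖sn w z‖ ^ 2 ≤ (Real.tanh y * ‖cs w z‖) ^ 2 := by
    rw [mul_pow, Real.tanh_eq_sinh_div_cosh, div_pow, div_mul_eq_mul_div,
      le_div_iff₀ (by positivity)]
    have h3 := Real.cosh_sq y
    nlinarith
  exact (pow_le_pow_iff_left₀ (norm_nonneg _) (by positivity) two_ne_zero).mp hfin

lemma cs_le_two_sn {w z : ℂ} (h : 1 ≤ |z.im - w.im|) : ‖cs w z‖ ≤ 2 * ‖sn w z‖ := by
  have h1 := norm_sn_sq w z
  have h2 := norm_cs_sq w z
  have hπ3 := Real.pi_gt_three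
  have h3 : 1 ≤ Real.sinh (Real.pi * (z.im - w.im)) ^ 2 := by
    have h4 : 1 ≤ |Real.sinh (Real.pi * (z.im - w.im))| := by
      rw [Real.abs_sinh]
      have h5 : (1:ℝ) ≤ |Real.pi * (z.im - w.im)| := by
        rw [abs_mul, abs_of_pos Real.pi_pos]; nlinarith
      exact h5.trans (Real.self_le_sinh_iff.mpr (abs_nonneg _))
    rw [← sq_abs]
    nlinarith
  have h5 := Real.sin_sq_add_cos_sq (Real.pi * (z.re - 1 + w.re))
  have h6 := sq_nonneg (Real.sin (Real.pi * (z.re - 1 + w.re)))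
  have h7 := sq_nonneg (Real.sin (Real.pi * (z.re - w.re)))
  have h8 : ‖cs w z‖ ^ 2 ≤ (2 * ‖sn w z‖) ^ 2 := by nlinarith
  exact (pow_le_pow_iff_left₀ (norm_nonneg _) (by positivity) two_ne_zero).mp h8

/-- The removable quotient `sin (π (z - w)) / (z - w)`. -/
noncomputable def sq' (w z : ℂ) : ℂ := dslope (fun z => sn w z) w z

lemma differentiable_sn (w : ℂ) : Differentiable ℂ (fun z => sn w z) := by
  unfold sn; fun_prop

lemma differentiable_cs (w : ℂ) : Differentiable ℂ (fun z => cs w z) := by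
  unfold cs; fun_prop

lemma differentiable_sq' (w : ℂ) : Differentiable ℂ (fun z => sq' w z) := by
  rw [← differentiableOn_univ]
  exact (Complex.differentiableOn_dslope Filter.univ_mem).mpr
    (differentiable_sn w).differentiableOn

lemma sq'_mul (w z : ℂ) : (z - w) * sq' w z = sn w z := by
  have h := sub_smul_dslope (fun z => sn w z) w z
  have h0 : sn w w = 0 := by simp [sn]
  rw [smul_eq_mul] at h
  simp only [h0, sub_zero] at h
  exact h

lemma sq'_ne {w z : ℂ} (hw : |w.re - 1 / 2| < 1 / 4) (hz : |z.re - 1 / 2| ≤ 1 / 4) :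
    sq' w z ≠ 0 := by
  by_cases h : z = w
  · subst h
    rw [sq', dslope_same]
    have hd : HasDerivAt (fun y => sn z y) (Complex.cos (Real.pi * (z - z)) * (Real.pi * 1)) z := by
      have h1 : HasDerivAt (fun y : ℂ => (Real.pi : ℂ) * (y - z)) (Real.pi * 1) z :=
        ((hasDerivAt_id z).sub_const z).const_mul _
      exact h1.csin
    rw [hd.deriv]
    simp [Real.pi_ne_zero]
  · intro h0
    have h1 := sq'_mul w z
    rw [h0, mul_zero] at h1
    exact sn_ne hw hz h h1.symm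

/-- A function bounded by `M` on the edges of the strip `|Re z - 1/2| ≤ 1/4` and having many zeros
is small. -/
theorem strip_blaschke {F : ℂ → ℂ} {B M : ℝ}
    (hF : DifferentiableOn ℂ F (re ⁻¹' Ioo (0:ℝ) 1))
    (hB : ∀ z : ℂ, 1 / 4 ≤ z.re → z.re ≤ 3 / 4 → ‖F z‖ ≤ B)
    (hM : ∀ z : ℂ, (z.re = 1 / 4 ∨ z.re = 3 / 4) → ‖F z‖ ≤ M) (Z : Finset ℂ)
    (hZ : ∀ w ∈ Z, |w.re - 1 / 2| < 1 / 4) {s : ℂ} (hs : s.re = 1 / 2) (hFs : F s ≠ 0) :
    ‖F s‖ * ∏ w ∈ Z, ‖cs w s‖ ^ (analyticOrderNatAt F w) ≤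
      M * ∏ w ∈ Z, ‖sn w s‖ ^ (analyticOrderNatAt F w) := by
  classical
  set U : Set ℂ := re ⁻¹' Ioo (0:ℝ) 1 with hU
  have hUo : IsOpen U := isOpen_Ioo.preimage Complex.continuous_re
  have hUc : Convex ℝ U := (convex_Ioo (0:ℝ) 1).is_linear_preimage
    (Complex.reLm.isLinear)
  have hFa : AnalyticOnNhd ℂ F U := hF.analyticOnNhd hUo
  have hsU : s ∈ U := by
    show s.re ∈ Ioo (0:ℝ) 1
    rw [hs]; constructor <;> norm_num
  have hstrip : ∀ z : ℂ, |z.re - 1 / 2| ≤ 1 / 4 → z ∈ U := by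
    intro z hz
    rw [abs_le] at hz
    show z.re ∈ Ioo (0:ℝ) 1
    constructor <;> linarith
  have hord : ∀ w ∈ U, analyticOrderAt F w ≠ ⊤ := by
    intro w hw
    have : analyticOrderAt F s ≠ ⊤ := by
      rw [(hFa s hsU).analyticOrderAt_eq_zero.mpr hFs]; simp
    exact hFa.analyticOrderAt_ne_top_of_isPreconnected hUc.isPreconnected hsU hw this
  obtain ⟨g, hga, hge, -⟩ := factor_finset hUo Z hFa (fun w hw => hstrip w (hZ w hw).le)
    (fun w hw => hord w (hstrip w (hZ w hw).le))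
  set m : ℂ → ℕ := fun w => analyticOrderNatAt F w with hm
  set Q : ℂ → ℂ := fun z => g z * ∏ w ∈ Z, (cs w z / sq' w z) ^ m w with hQ
  have hQF : ∀ z : ℂ, |z.re - 1 / 2| ≤ 1 / 4 →
      Q z * ∏ w ∈ Z, sn w z ^ m w = F z * ∏ w ∈ Z, cs w z ^ m w := by
    intro z hz
    rw [hge z (hstrip z hz), hQ]
    simp only
    have : (∏ w ∈ Z, (cs w z / sq' w z) ^ m w) * ∏ w ∈ Z, sn w z ^ m w =
        (∏ w ∈ Z, (z - w) ^ m w) * ∏ w ∈ Z, cs w z ^ m w := by
      rw [← Finset.prod_mul_distrib, ← Finset.prod_mul_distrib]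
      apply Finset.prod_congr rfl
      intro w hw
      rw [← mul_pow, ← mul_pow]
      congr 1
      rw [← sq'_mul w z]
      have := sq'_ne (hZ w hw) hz
      field_simp
    calc g z * (∏ w ∈ Z, (cs w z / sq' w z) ^ m w) * ∏ w ∈ Z, sn w z ^ m w
        = g z * ((∏ w ∈ Z, (cs w z / sq' w z) ^ m w) * ∏ w ∈ Z, sn w z ^ m w) := by ring
      _ = _ := by rw [this]; ring
  have hQn : ∀ z : ℂ, |z.re - 1 / 2| ≤ 1 / 4 →
      ‖Q z‖ * ∏ w ∈ Z, ‖sn w z‖ ^ m w = ‖F z‖ * ∏ w ∈ Z, ‖cs w z‖ ^ m w := by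
    intro z hz
    have := congrArg norm (hQF z hz)
    simpa only [norm_mul, norm_prod, norm_pow] using this
  have hQd : ∀ z : ℂ, |z.re - 1 / 2| ≤ 1 / 4 → DifferentiableAt ℂ Q z := by
    intro z hz
    have h1 : DifferentiableAt ℂ g z := (hga z (hstrip z hz)).differentiableAt
    refine h1.mul ?_
    apply DifferentiableAt.fun_finsetProd
    intro w hw
    exact ((differentiable_cs w z).div (differentiable_sq' w z) (sq'_ne (hZ w hw) hz)).pow _
  -- boundedness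
  obtain ⟨T, hT⟩ : ∃ T : ℝ, ∀ w ∈ Z, |w.im| ≤ T := by
    refine ⟨∑ w ∈ Z, |w.im|, fun w hw => ?_⟩
    exact Finset.single_le_sum (f := fun w => |w.im|) (fun w _ => abs_nonneg _) hw
  have hcomp : IsCompact (Icc (1 / 4 : ℝ) (3 / 4) ×ℂ Icc (-(T + 1)) (T + 1)) :=
    isCompact_Icc.reProdIm isCompact_Icc
  have hcont : ContinuousOn Q (Icc (1 / 4 : ℝ) (3 / 4) ×ℂ Icc (-(T + 1)) (T + 1)) := by
    intro z hz
    rw [mem_reProdIm] at hz
    have : |z.re - 1 / 2| ≤ 1 / 4 := by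
      rw [abs_le]; constructor <;> linarith [hz.1.1, hz.1.2]
    exact (hQd z this).continuousAt.continuousWithinAt
  obtain ⟨B1, hB1⟩ := hcomp.exists_bound_of_continuousOn hcont
  have hB0 : 0 ≤ B := (norm_nonneg _).trans (hB s (by rw [hs]; norm_num) (by rw [hs]; norm_num))
  have hbd : ∀ z : ℂ, 1 / 4 ≤ z.re → z.re ≤ 3 / 4 → ‖Q z‖ ≤ max B1 (B * ∏ w ∈ Z, 2 ^ m w) := by
    intro z hz1 hz2
    have hz : |z.re - 1 / 2| ≤ 1 / 4 := by rw [abs_le]; constructor <;> linarith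
    by_cases hT1 : |z.im| ≤ T + 1
    · rw [abs_le] at hT1
      exact (hB1 z ⟨⟨hz1, hz2⟩, ⟨hT1.1, hT1.2⟩⟩).trans (le_max_left _ _)
    · push Not at hT1
      refine le_trans ?_ (le_max_right _ _)
      have h1 := hQn z hz
      have h2 : ∀ w ∈ Z, 1 ≤ |z.im - w.im| := by
        intro w hw
        have h3 := hT w hw
        have h4 := abs_sub_abs_le_abs_sub z.im w.im
        linarith
      have h3 : ∏ w ∈ Z, ‖cs w z‖ ^ m w ≤ (∏ w ∈ Z, (2:ℝ) ^ m w) * ∏ w ∈ Z, ‖sn w z‖ ^ m w := by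
        rw [← Finset.prod_mul_distrib]
        apply Finset.prod_le_prod
        · intro w _; positivity
        · intro w hw
          rw [← mul_pow]
          exact pow_le_pow_left₀ (norm_nonneg _) (cs_le_two_sn (h2 w hw)) _
      have h4 : 0 < ∏ w ∈ Z, ‖sn w z‖ ^ m w := by
        apply Finset.prod_pos
        intro w hw
        have h5 : z ≠ w := by
          rintro rfl
          have := h2 z hw
          rw [sub_self, abs_zero] at this
          linarith
        have := norm_pos_iff.mpr (sn_ne (hZ w hw) hz h5)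
        positivity
      have h5 : ‖Q z‖ * ∏ w ∈ Z, ‖sn w z‖ ^ m w ≤
          (B * ∏ w ∈ Z, (2:ℝ) ^ m w) * ∏ w ∈ Z, ‖sn w z‖ ^ m w := by
        rw [h1, mul_assoc]
        exact mul_le_mul (hB z hz1 hz2) h3 (by positivity) hB0
      exact le_of_mul_le_mul_right h5 h4
  have hedge : ∀ z : ℂ, (z.re = 1 / 4 ∨ z.re = 3 / 4) → ‖Q z‖ ≤ M := by
    intro z hz
    have hz' : |z.re - 1 / 2| ≤ 1 / 4 := by
      rcases hz with h | h <;> rw [h] <;> norm_num
    have h1 := hQn z hz'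
    have h2 : ∏ w ∈ Z, ‖sn w z‖ ^ m w = ∏ w ∈ Z, ‖cs w z‖ ^ m w :=
      Finset.prod_congr rfl fun w _ => by rw [edge_eq hz]
    have h4 : 0 < ∏ w ∈ Z, ‖cs w z‖ ^ m w := by
      apply Finset.prod_pos
      intro w hw
      have := norm_pos_iff.mpr (cs_ne (hZ w hw) hz')
      positivity
    rw [h2] at h1
    have h5 : ‖Q z‖ = ‖F z‖ := mul_right_cancel₀ h4.ne' h1
    rw [h5]
    exact hM z hz
  have hdc : DiffContOnCl ℂ Q (re ⁻¹' Ioo (1 / 4 : ℝ) (3 / 4)) := by
    apply DifferentiableOn.diffContOnCl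
    intro z hz
    have hz' : z ∈ re ⁻¹' (Icc (1 / 4 : ℝ) (3 / 4)) := by
      have := closure_minimal (s := re ⁻¹' Ioo (1 / 4 : ℝ) (3 / 4))
        (t := re ⁻¹' Icc (1 / 4 : ℝ) (3 / 4))
        (preimage_mono Ioo_subset_Icc_self) (isClosed_Icc.preimage Complex.continuous_re)
      exact this hz
    have h1 : 1 / 4 ≤ z.re := hz'.1
    have h2 : z.re ≤ 3 / 4 := hz'.2
    exact (hQd z (by rw [abs_le]; constructor <;> linarith)).differentiableWithinAt
  have hQs : ‖Q s‖ ≤ M :=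
    strip_max (a := 1 / 4) (b := 3 / 4) (by norm_num) hdc
      (fun z h1 h2 => hbd z h1.le h2.le) (fun z hz => hedge z (Or.inl hz))
      (fun z hz => hedge z (Or.inr hz)) (by rw [hs]; norm_num) (by rw [hs]; norm_num)
  have h1 := hQn s (by rw [hs]; norm_num)
  rw [← h1]
  gcongr

end Pool.Agent.H61.GLH
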