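import Pool.Agent.H23.GLH.Instance
import Pool.Agent.H61.GLH.StripBl

/-! The functional equation of primitive Dirichlet `L`-functions as a lower bound. -/

set_option autoImplicit false

open Complex Set Filter Topology

namespace Pool.Agent.H61.GLH

open Pool.Agent.H23.GLH DirichletCharacter

/-- The constant of the Stirling bound. -/
noncomputable def G0 : ℝ := 4 * Real.sqrt (2 * Real.pi) * Real.exp (9 / 4)

lemma G0_pos : 0 < G0 := by
  unfold G0
  have := Real.pi_pos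
  positivity

lemma norm_Gamma_lower {σ t : ℝ} (h1 : 1 / 2 ≤ σ) (h2 : σ ≤ 3 / 4) :
    (1 / (2 * G0)) * (1 + |t|) ^ (σ - 1 / 2) * Real.exp (-(Real.pi * |t| / 2)) ≤
      ‖Gamma (σ + t * I)‖ := by
  have hπ := Real.pi_pos
  have hπ3 := Real.pi_gt_three
  have hG := G0_pos
  have ht := abs_nonneg t
  set s : ℂ := σ + t * I with hs
  have hsre : s.re = σ := by simp [hs]
  have hsim : s.im = t := by simp [hs]
  have hΓ1 : (1 - s) * Gamma (1 - s) = Gamma (2 - s) := by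
    have h3 : (1 - s) ≠ 0 := by
      intro h0
      have := congrArg Complex.re h0
      rw [Complex.sub_re, hsre] at this
      norm_num at this
      linarith
    have := Complex.Gamma_add_one (1 - s) h3
    rw [← this]
    congr 1; ring
  have hΓ2 : ‖Gamma (2 - s)‖ ≤ G0 * (1 + |t|) ^ (3 / 2 - σ) * Real.exp (-(Real.pi * |t| / 2)) := by
    have h3 := norm_Gamma_strip (2 - σ) (-t) (by linarith) (by linarith)
    have e : (((2 - σ : ℝ) : ℂ) + ((-t : ℝ) : ℂ) * I) = 2 - s := by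
      rw [hs]; push_cast; ring
    rw [e, abs_neg] at h3
    have e2 : 2 - σ - 1 / 2 = 3 / 2 - σ := by ring
    rw [e2] at h3
    exact h3
  have hns : (1 + |t|) / 5 ≤ ‖1 - s‖ := by
    have h3 := Complex.abs_re_le_norm (1 - s)
    have h4 := Complex.abs_im_le_norm (1 - s)
    rw [Complex.sub_re, hsre, Complex.one_re] at h3
    rw [Complex.sub_im, hsim, Complex.one_im, zero_sub, abs_neg] at h4
    have h5 := le_abs_self (1 - σ)
    linarith
  have hΓ3 : ‖Gamma (1 - s)‖ ≤ 5 * G0 * (1 + |t|) ^ (1 / 2 - σ) *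
      Real.exp (-(Real.pi * |t| / 2)) := by
    have h3 := congrArg norm hΓ1
    rw [norm_mul] at h3
    have h4 : (1 + |t|) / 5 * ‖Gamma (1 - s)‖ ≤
        G0 * (1 + |t|) ^ (3 / 2 - σ) * Real.exp (-(Real.pi * |t| / 2)) := by
      calc (1 + |t|) / 5 * ‖Gamma (1 - s)‖ ≤ ‖1 - s‖ * ‖Gamma (1 - s)‖ := by gcongr
        _ ≤ _ := by rw [h3]; exact hΓ2
    have h5 : (1 + |t|) ^ (3 / 2 - σ) = (1 + |t|) * (1 + |t|) ^ (1 / 2 - σ) := by
      rw [← Real.rpow_one_add' (by positivity) (by linarith)]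
      congr 1; ring
    rw [h5] at h4
    have h6 : (1 + |t|) * ‖Gamma (1 - s)‖ ≤ (1 + |t|) * (5 * G0 * (1 + |t|) ^ (1 / 2 - σ) *
      Real.exp (-(Real.pi * |t| / 2))) := by linarith
    exact le_of_mul_le_mul_left h6 (by positivity)
  have hrefl := Complex.Gamma_mul_Gamma_one_sub s
  have hsin : ‖Complex.sin (Real.pi * s)‖ ≤ Real.exp (Real.pi * |t|) := by
    refine (norm_sin_le _).trans (le_of_eq ?_)
    rw [Complex.im_ofReal_mul, hsim, abs_mul, abs_of_pos hπ]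
  have hsin0 : Complex.sin (Real.pi * s) ≠ 0 := by
    intro h0
    have h3 := norm_sin_sq (Real.pi * s)
    rw [h0, norm_zero, Complex.re_ofReal_mul, Complex.im_ofReal_mul, hsre, hsim] at h3
    have h4 : 0 < Real.sin (Real.pi * σ) := by
      apply Real.sin_pos_of_pos_of_lt_pi
      · positivity
      · nlinarith
    have h5 : 0 < Real.sin (Real.pi * σ) ^ 2 := by positivity
    have h6 := sq_nonneg (Real.sinh (Real.pi * t))
    norm_num at h3
    linarith
  have h3 : ‖Gamma s‖ * ‖Gamma (1 - s)‖ * ‖Complex.sin (Real.pi * s)‖ = Real.pi := by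
    rw [← norm_mul, hrefl, norm_div, Complex.norm_real, Real.norm_of_nonneg hπ.le,
      div_mul_cancel₀]
    exact norm_ne_zero_iff.mpr hsin0
  -- π ≤ ‖Γ s‖ * (5 G0 (1+|t|)^(1/2-σ) e^{π|t|/2})
  have h4 : Real.pi ≤ ‖Gamma s‖ * (5 * G0 * (1 + |t|) ^ (1 / 2 - σ) *
      Real.exp (Real.pi * |t| / 2)) := by
    calc Real.pi = ‖Gamma s‖ * ‖Gamma (1 - s)‖ * ‖Complex.sin (Real.pi * s)‖ := h3.symm
      _ ≤ ‖Gamma s‖ * (5 * G0 * (1 + |t|) ^ (1 / 2 - σ) * Real.exp (-(Real.pi * |t| / 2))) *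
          Real.exp (Real.pi * |t|) := by gcongr
      _ = ‖Gamma s‖ * (5 * G0 * (1 + |t|) ^ (1 / 2 - σ) *
          (Real.exp (-(Real.pi * |t| / 2)) * Real.exp (Real.pi * |t|))) := by ring
      _ = _ := by
          rw [← Real.exp_add]
          congr 3; ring
  set P := (1 + |t|) ^ (σ - 1 / 2) with hP
  have hP0 : 0 < P := Real.rpow_pos_of_pos (by positivity) _
  have hPP : P * (1 + |t|) ^ (1 / 2 - σ) = 1 := by
    rw [hP, ← Real.rpow_add (by positivity)]
    have : σ - 1 / 2 + (1 / 2 - σ) = 0 := by ring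
    rw [this, Real.rpow_zero]
  set Q := Real.exp (-(Real.pi * |t| / 2)) with hQ
  have hQ0 : 0 < Q := Real.exp_pos _
  have hQQ : Q * Real.exp (Real.pi * |t| / 2) = 1 := by
    rw [hQ, ← Real.exp_add]; simp
  have h5 : P * Q * Real.pi ≤ ‖Gamma s‖ * (5 * G0) := by
    calc P * Q * Real.pi ≤ P * Q * (‖Gamma s‖ * (5 * G0 * (1 + |t|) ^ (1 / 2 - σ) *
        Real.exp (Real.pi * |t| / 2))) := by gcongr
      _ = ‖Gamma s‖ * (5 * G0) * (P * (1 + |t|) ^ (1 / 2 - σ)) *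
          (Q * Real.exp (Real.pi * |t| / 2)) := by ring
      _ = _ := by rw [hPP, hQQ]; ring
  have h6 : (1 / (2 * G0)) * P * Q = P * Q / (2 * G0) := by ring
  rw [h6, div_le_iff₀ (by positivity)]
  have h7 : 0 < P * Q := by positivity
  nlinarith

lemma sq_lower {u b : ℝ} (hu : 1 / 8 ≤ u) : (Real.exp |b| / 6) ^ 2 ≤ u + Real.sinh b ^ 2 := by
  have h1 := Real.cosh_sq b
  have h2 : Real.exp |b| / 2 ≤ Real.cosh b := by
    rw [← Real.cosh_abs, Real.cosh_eq]
    have := Real.exp_pos (-|b|)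
    linarith
  have h3 := Real.exp_pos |b|
  have h4 : (Real.exp |b| / 2) ^ 2 ≤ Real.cosh b ^ 2 := pow_le_pow_left₀ (by positivity) h2 2
  nlinarith [sq_nonneg (Real.sinh b)]

lemma norm_cos_ge {s : ℂ} (h1 : 1 / 2 ≤ s.re) (h2 : s.re ≤ 3 / 4) :
    Real.exp |Real.pi * s.im / 2| / 6 ≤ ‖Complex.cos (Real.pi * s / 2)‖ := by
  have hπ := Real.pi_pos
  have e : (Real.pi * s / 2 : ℂ) = ((Real.pi / 2 : ℝ) : ℂ) * s := by push_cast; ring
  have h3 := norm_cos_sq (Real.pi * s / 2)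
  have hre : (Real.pi * s / 2 : ℂ).re = Real.pi / 2 * s.re := by
    rw [e, Complex.re_ofReal_mul]
  have him : (Real.pi * s / 2 : ℂ).im = Real.pi * s.im / 2 := by
    rw [e, Complex.im_ofReal_mul]; ring
  rw [hre, him] at h3
  have h4 : 1 / 8 ≤ Real.cos (Real.pi / 2 * s.re) ^ 2 := by
    have h5 : Real.cos (3 * Real.pi / 8) ≤ Real.cos (Real.pi / 2 * s.re) := by
      apply Real.cos_le_cos_of_nonneg_of_le_pi (by positivity) (by linarith)
      nlinarith
    have h6 : Real.cos (3 * Real.pi / 8) ^ 2 = 1 / 2 + Real.cos (2 * (3 * Real.pi / 8)) / 2 :=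
      Real.cos_sq _
    have h7 : Real.cos (2 * (3 * Real.pi / 8)) = -(Real.sqrt 2 / 2) := by
      have : 2 * (3 * Real.pi / 8) = Real.pi - Real.pi / 4 := by ring
      rw [this, Real.cos_pi_sub, Real.cos_pi_div_four]
    have h8 : Real.sqrt 2 ≤ 3 / 2 := by
      rw [Real.sqrt_le_left (by norm_num)]
      norm_num
    have h9 : 0 < Real.cos (3 * Real.pi / 8) := by
      apply Real.cos_pos_of_mem_Ioo
      constructor <;> linarith
    have h10 : Real.cos (3 * Real.pi / 8) ^ 2 ≤ Real.cos (Real.pi / 2 * s.re) ^ 2 :=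
      pow_le_pow_left₀ h9.le h5 2
    rw [h6, h7] at h10
    linarith
  have h5 := sq_lower (b := Real.pi * s.im / 2) h4
  rw [← h3] at h5
  exact (pow_le_pow_iff_left₀ (by positivity) (norm_nonneg _) two_ne_zero).mp h5

lemma norm_sin_ge {s : ℂ} (h1 : 1 / 2 ≤ s.re) (h2 : s.re ≤ 3 / 4) :
    Real.exp |Real.pi * s.im / 2| / 6 ≤ ‖Complex.sin (Real.pi * s / 2)‖ := by
  have hπ := Real.pi_pos
  have e : (Real.pi * s / 2 : ℂ) = ((Real.pi / 2 : ℝ) : ℂ) * s := by push_cast; ring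
  have h3 := norm_sin_sq (Real.pi * s / 2)
  have hre : (Real.pi * s / 2 : ℂ).re = Real.pi / 2 * s.re := by
    rw [e, Complex.re_ofReal_mul]
  have him : (Real.pi * s / 2 : ℂ).im = Real.pi * s.im / 2 := by
    rw [e, Complex.im_ofReal_mul]; ring
  rw [hre, him] at h3
  have h4 : 1 / 8 ≤ Real.sin (Real.pi / 2 * s.re) ^ 2 := by
    have h5 : Real.sin (Real.pi / 4) ≤ Real.sin (Real.pi / 2 * s.re) := by
      apply Real.sin_le_sin_of_le_of_le_pi_div_two
      · linarith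
      · nlinarith
      · nlinarith
    rw [Real.sin_pi_div_four] at h5
    have h8 : 1 ≤ Real.sqrt 2 := by
      rw [Real.one_le_sqrt]; norm_num
    nlinarith
  have h5 := sq_lower (b := Real.pi * s.im / 2) h4
  rw [← h3] at h5
  exact (pow_le_pow_iff_left₀ (by positivity) (norm_nonneg _) two_ne_zero).mp h5

/-- The asymmetric functional equation with a lower bound for the trigonometric factor. -/
lemma LFunction_one_sub_eq_lower {N : ℕ} [NeZero N] (χ : DirichletCharacter ℂ N)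
    (hχ : χ.IsPrimitive) {s : ℂ} (hs : 1 / 2 ≤ s.re) (hs1 : s.re ≤ 3 / 4) :
    ∃ T : ℂ, Real.exp |Real.pi * s.im / 2| / 6 ≤ ‖T‖ ∧
      χ.LFunction (1 - s) = (N : ℂ) ^ (s - 1 / 2) * rootNumber χ * (Gammaℂ s * T) *
        (χ⁻¹).LFunction s := by
  have hs00 : 0 < s.re := by linarith
  have hs0 : s ≠ 0 := by rintro rfl; simp at hs00
  have h1s : 1 - s ≠ 0 := by
    intro h
    have := congrArg Complex.re h
    simp at this
    linarith
  have hfe := hχ.completedLFunction_one_sub s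
  have h1 := LFunction_eq_completed_div_gammaFactor χ (1 - s) (Or.inl h1s)
  have h2 := LFunction_eq_completed_div_gammaFactor χ⁻¹ s (Or.inl hs0)
  have hsn : ∀ n : ℕ, s ≠ -n := by
    intro n h
    rw [h] at hs00
    simp at hs00
    have : (0:ℝ) ≤ n := Nat.cast_nonneg n
    linarith
  rcases χ.even_or_odd with he | ho
  · have he' : (χ⁻¹).Even := by
      rw [DirichletCharacter.Even] at he ⊢
      rw [MulChar.inv_apply_eq_inv', he, inv_one]
    refine ⟨Complex.cos (Real.pi * s / 2), norm_cos_ge hs hs1, ?_⟩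
    have hγ0 : Gammaℝ s ≠ 0 := Gammaℝ_ne_zero_of_re_pos hs00
    rw [he.gammaFactor_def] at h1
    rw [he'.gammaFactor_def] at h2
    have h3 : completedLFunction χ⁻¹ s = (χ⁻¹).LFunction s * Gammaℝ s := by
      rw [h2, div_mul_cancel₀ _ hγ0]
    rw [h1, hfe, h3, div_eq_mul_inv, inv_Gammaℝ_one_sub hsn]
    field_simp
  · have ho' : (χ⁻¹).Odd := by
      rw [DirichletCharacter.Odd] at ho ⊢
      rw [MulChar.inv_apply_eq_inv', ho, inv_neg, inv_one]
    refine ⟨Complex.sin (Real.pi * s / 2), norm_sin_ge hs hs1, ?_⟩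
    have hγ0 : Gammaℝ (s + 1) ≠ 0 := Gammaℝ_ne_zero_of_re_pos (by simp; linarith)
    rw [ho.gammaFactor_def, show (1 : ℂ) - s + 1 = 2 - s by ring] at h1
    rw [ho'.gammaFactor_def] at h2
    have h3 : completedLFunction χ⁻¹ s = (χ⁻¹).LFunction s * Gammaℝ (s + 1) := by
      rw [h2, div_mul_cancel₀ _ hγ0]
    rw [h1, hfe, h3, div_eq_mul_inv, inv_Gammaℝ_two_sub hsn]
    field_simp

lemma functional_lower {N : ℕ} [NeZero N] (χ : DirichletCharacter ℂ N) (hχ : χ.IsPrimitive)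
    (x t : ℝ) (hx : 0 ≤ x) (hx4 : x ≤ 1 / 4) :
    ((N : ℝ) * (1 + |t|)) ^ x * ‖χ.LFunction (1 / 2 + x + t * I)‖ ≤
      (42 * G0) * ‖χ.LFunction (1 / 2 - x + t * I)‖ := by
  have hπ := Real.pi_pos
  have hπ2 := Real.pi_lt_d2
  have hG := G0_pos
  set s : ℂ := 1 / 2 + x - t * I with hs
  have hre : s.re = 1 / 2 + x := by simp [hs]
  have him : s.im = -t := by simp [hs]
  have e1 : (1 / 2 - x + t * I : ℂ) = 1 - s := by rw [hs]; ring
  obtain ⟨T, hT, hfe⟩ := LFunction_one_sub_eq_lower χ hχ (s := s) (by rw [hre]; linarith)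
    (by rw [hre]; linarith)
  have hN : (0:ℝ) < N := by exact_mod_cast NeZero.pos N
  have h1 : ‖(N : ℂ) ^ (s - 1 / 2)‖ = (N : ℝ) ^ x := by
    rw [Complex.norm_natCast_cpow_of_pos (NeZero.pos N)]
    congr 1
    rw [Complex.sub_re, hre]; simp
  have ht := abs_nonneg t
  have hT' : Real.exp (Real.pi * |t| / 2) / 6 ≤ ‖T‖ := by
    have : |Real.pi * s.im / 2| = Real.pi * |t| / 2 := by
      rw [him, abs_div, abs_mul, abs_neg, abs_of_pos hπ, abs_of_pos (by norm_num : (0:ℝ) < 2)]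
    rwa [this] at hT
  have hΓ : (1 / 7) * ((1 / (2 * G0)) * (1 + |t|) ^ x * Real.exp (-(Real.pi * |t| / 2))) * 2 ≤
      ‖Gammaℂ s‖ := by
    rw [Gammaℂ_def, norm_mul, norm_mul]
    have h2 : ‖(2 : ℂ)‖ = 2 := by simp
    have h3 : 1 / 7 ≤ ‖(2 * (Real.pi : ℂ)) ^ (-s)‖ := by
      have : (2 * (Real.pi : ℂ)) = ((2 * Real.pi : ℝ) : ℂ) := by push_cast; ring
      rw [this, Complex.norm_cpow_eq_rpow_re_of_pos (by positivity), Complex.neg_re, hre]
      have h4 : (2 * Real.pi) ^ (-1 : ℝ) ≤ (2 * Real.pi) ^ (-(1 / 2 + x)) := by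
        apply Real.rpow_le_rpow_of_exponent_le
        · have := Real.pi_gt_three; linarith
        · linarith
      refine le_trans ?_ h4
      rw [Real.rpow_neg_one, one_div]
      apply inv_anti₀ (by positivity)
      linarith
    have h4 : s = ((1 / 2 + x : ℝ) : ℂ) + ((-t : ℝ) : ℂ) * I := by
      rw [hs]; push_cast; ring
    have h5 := norm_Gamma_lower (σ := 1 / 2 + x) (t := -t) (by linarith) (by linarith)
    rw [← h4, abs_neg] at h5
    have e5 : 1 / 2 + x - 1 / 2 = x := by ring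
    rw [e5] at h5
    rw [h2]
    calc (1 / 7) * ((1 / (2 * G0)) * (1 + |t|) ^ x * Real.exp (-(Real.pi * |t| / 2))) * 2
        = 2 * (1 / 7) * ((1 / (2 * G0)) * (1 + |t|) ^ x * Real.exp (-(Real.pi * |t| / 2))) := by ring
      _ ≤ 2 * ‖(2 * (Real.pi : ℂ)) ^ (-s)‖ * ‖Gamma s‖ := by gcongr
  have hprod : (1 + |t|) ^ x ≤ (42 * G0) * (‖Gammaℂ s‖ * ‖T‖) := by
    have h6 : (1 / 7) * ((1 / (2 * G0)) * (1 + |t|) ^ x * Real.exp (-(Real.pi * |t| / 2))) * 2 *
        (Real.exp (Real.pi * |t| / 2) / 6) ≤ ‖Gammaℂ s‖ * ‖T‖ := by gcongr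
    have h7 : Real.exp (-(Real.pi * |t| / 2)) * Real.exp (Real.pi * |t| / 2) = 1 := by
      rw [← Real.exp_add]; simp
    have h8 : (42 * G0) * ((1 / 7) * ((1 / (2 * G0)) * (1 + |t|) ^ x *
        Real.exp (-(Real.pi * |t| / 2))) * 2 * (Real.exp (Real.pi * |t| / 2) / 6)) =
        (1 + |t|) ^ x * (Real.exp (-(Real.pi * |t| / 2)) * Real.exp (Real.pi * |t| / 2)) := by
      field_simp
      ring
    rw [h7, mul_one] at h8
    rw [← h8]
    gcongr
  have hL : ‖χ.LFunction (1 / 2 + x + t * I)‖ = ‖(χ⁻¹).LFunction s‖ := by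
    by_cases h : (1 / 2 + x + t * I : ℂ) = 1
    · exfalso
      have := congrArg Complex.re h
      simp at this
      linarith
    · have hc := LFunction_conj χ h
      have e : (starRingEnd ℂ) (1 / 2 + x + t * I : ℂ) = s := by
        rw [map_add, map_add, map_mul, conj_I, conj_ofReal, conj_ofReal, map_div₀, map_one,
          map_ofNat, hs]
        ring
      rw [e] at hc
      rw [hc, RCLike.norm_conj]
  rw [hL, e1, hfe, norm_mul, norm_mul, norm_mul, norm_mul, norm_rootNumber χ hχ, mul_one, h1,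
    Real.mul_rpow hN.le (by linarith)]
  have hLn := norm_nonneg ((χ⁻¹).LFunction s)
  calc (N : ℝ) ^ x * (1 + |t|) ^ x * ‖(χ⁻¹).LFunction s‖
      ≤ (N : ℝ) ^ x * ((42 * G0) * (‖Gammaℂ s‖ * ‖T‖)) * ‖(χ⁻¹).LFunction s‖ := by gcongr
    _ = _ := by ring

lemma PrimChar_lower (π : PrimChar) (x t : ℝ) (hx : 0 ≤ x) (hx4 : x ≤ 1 / 4) :
    (π.C * (1 + |t|)) ^ x * ‖π.L (1 / 2 + x + t * I)‖ ≤
      (84 * G0) * ‖π.L (1 / 2 - x + t * I)‖ := by
  classical
  have := π.q_ne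
  have hG := G0_pos
  have h := functional_lower π.χ π.prim x t hx hx4
  have h2 := π.one_le_q
  have h3 := abs_nonneg t
  have hC2 : π.C ≤ 2 * π.q := by
    unfold PrimChar.C
    split_ifs <;> linarith
  have hC1 := π.one_le_C
  have h4 : (π.C * (1 + |t|)) ^ x ≤ 2 * ((π.q : ℝ) * (1 + |t|)) ^ x := by
    calc (π.C * (1 + |t|)) ^ x ≤ (2 * ((π.q : ℝ) * (1 + |t|))) ^ x := by
          apply Real.rpow_le_rpow (by positivity) _ hx
          nlinarith
      _ = 2 ^ x * ((π.q : ℝ) * (1 + |t|)) ^ x := Real.mul_rpow (by norm_num) (by positivity)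
      _ ≤ 2 ^ (1:ℝ) * ((π.q : ℝ) * (1 + |t|)) ^ x := by
          gcongr
          · norm_num
          · linarith
      _ = _ := by rw [Real.rpow_one]
  have hL : 0 ≤ ‖π.L (1 / 2 + x + t * I)‖ := norm_nonneg _
  calc (π.C * (1 + |t|)) ^ x * ‖π.L (1 / 2 + x + t * I)‖
      ≤ (2 * ((π.q : ℝ) * (1 + |t|)) ^ x) * ‖π.L (1 / 2 + x + t * I)‖ := by gcongr
    _ = 2 * (((π.q : ℝ) * (1 + |t|)) ^ x * ‖π.L (1 / 2 + x + t * I)‖) := by ring
    _ ≤ 2 * ((42 * G0) * ‖π.L (1 / 2 - x + t * I)‖) :=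
        mul_le_mul_of_nonneg_left h (by norm_num)
    _ = _ := by ring

end Pool.Agent.H61.GLH
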