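import Mathlib

/-! Two-constants theorem on a rectangle, the Schwarz transform, three circles, and analytic
logarithms on convex open sets. -/

set_option autoImplicit false

open Complex Set Filter Topology Metric

namespace Pool.Agent.H61.GLH

/-- The harmonic function `sinh (π x / H) cos (π y / H) / sinh (π W / H)` on the rectangle
`[0, W] × [-H/2, H/2]`. -/
noncomputable def Phi (W H : ℝ) (z : ℂ) : ℝ :=
  Real.sinh (Real.pi * z.re / H) * Real.cos (Real.pi * z.im / H) / Real.sinh (Real.pi * W / H)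

/-- Open rectangle. -/
def rect (W H : ℝ) : Set ℂ := Ioo 0 W ×ℂ Ioo (-(H / 2)) (H / 2)

lemma sinh_re (z : ℂ) : (Complex.sinh z).re = Real.sinh z.re * Real.cos z.im := by
  conv_lhs => rw [← Complex.re_add_im z]
  rw [Complex.sinh_add, Complex.sinh_mul_I, Complex.cosh_mul_I, ← Complex.ofReal_sinh,
    ← Complex.ofReal_cosh, ← Complex.ofReal_cos, ← Complex.ofReal_sin]
  simp only [add_re, mul_re, ofReal_re, ofReal_im, mul_im, I_re, I_im]
  ring

lemma Phi_eq_re (W H : ℝ) (z : ℂ) :
    Phi W H z = (Complex.sinh ((Real.pi / H : ℝ) * z) / (Real.sinh (Real.pi * W / H) : ℝ)).re := by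
  rw [Complex.div_ofReal_re, sinh_re, Phi]
  congr 3
  · simp; ring
  · simp; ring_nf

lemma closure_rect {W H : ℝ} (hW : 0 < W) (hH : 0 < H) :
    closure (rect W H) = Icc 0 W ×ℂ Icc (-(H / 2)) (H / 2) := by
  rw [rect, closure_reProdIm, closure_Ioo hW.ne, closure_Ioo (by linarith)]

lemma frontier_rect {W H : ℝ} (hW : 0 < W) (hH : 0 < H) {z : ℂ} (hz : z ∈ frontier (rect W H)) :
    (0 ≤ z.re ∧ z.re ≤ W ∧ -(H / 2) ≤ z.im ∧ z.im ≤ H / 2) ∧
      (z.re = 0 ∨ z.re = W ∨ z.im = -(H / 2) ∨ z.im = H / 2) := by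
  rw [rect, frontier_reProdIm, closure_Ioo hW.ne, closure_Ioo (by linarith), frontier_Ioo hW,
    frontier_Ioo (by linarith)] at hz
  rcases hz with hz | hz
  · rw [mem_reProdIm] at hz
    obtain ⟨⟨h1, h2⟩, h3⟩ := hz
    rcases h3 with h3 | h3
    · exact ⟨⟨h1, h2, by linarith, by linarith⟩, Or.inr (Or.inr (Or.inl h3))⟩
    · have h3' : z.im = H / 2 := h3
      exact ⟨⟨h1, h2, by linarith, by linarith⟩, Or.inr (Or.inr (Or.inr h3'))⟩
  · rw [mem_reProdIm] at hz
    obtain ⟨h3, ⟨h1, h2⟩⟩ := hz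
    rcases h3 with h3 | h3
    · exact ⟨⟨by linarith, by linarith, h1, h2⟩, Or.inl h3⟩
    · have h3' : z.re = W := h3
      exact ⟨⟨by linarith, by linarith, h1, h2⟩, Or.inr (Or.inl h3')⟩

lemma isBounded_rect (W H : ℝ) : Bornology.IsBounded (rect W H) := by
  exact (isBounded_Ioo _ _).reProdIm (isBounded_Ioo _ _)

lemma isOpen_rect (W H : ℝ) : IsOpen (rect W H) := isOpen_Ioo.reProdIm isOpen_Ioo

/-- Two-constants theorem on a rectangle. -/
theorem two_const {W H m : ℝ} (hW : 0 < W) (hH : 0 < H) (hm : 0 < m) (hm1 : m ≤ 1) {k : ℂ → ℂ}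
    (hk : DiffContOnCl ℂ k (rect W H))
    (h1 : ∀ z ∈ closure (rect W H), ‖k z‖ ≤ 1)
    (h2 : ∀ z ∈ closure (rect W H), z.re = W → ‖k z‖ ≤ m) {z : ℂ}
    (hz : z ∈ closure (rect W H)) : ‖k z‖ ≤ m ^ (Phi W H z) := by
  have hsW : 0 < Real.sinh (Real.pi * W / H) := by
    rw [Real.sinh_pos_iff]; positivity
  set S : ℂ → ℂ := fun z => Complex.sinh ((Real.pi / H : ℝ) * z) / (Real.sinh (Real.pi * W / H) : ℝ)
    with hS
  set K : ℂ → ℂ := fun z => k z * Complex.exp (-(Real.log m : ℂ) * S z) with hK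
  have hSd : Differentiable ℂ S := by
    rw [hS]; fun_prop
  have hKd : DiffContOnCl ℂ K (rect W H) := by
    have h : DiffContOnCl ℂ (fun z => Complex.exp (-(Real.log m : ℂ) * S z)) (rect W H) :=
      Differentiable.diffContOnCl (by fun_prop)
    have h3 := h.smul hk
    have e : K = fun z => Complex.exp (-(Real.log m : ℂ) * S z) • k z := by
      funext z; rw [hK, smul_eq_mul, mul_comm]
    rw [e]
    exact h3
  have hnorm : ∀ w, ‖K w‖ = ‖k w‖ * m ^ (-Phi W H w) := by
    intro w
    rw [hK]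
    simp only [norm_mul, Complex.norm_exp]
    congr 1
    rw [Phi_eq_re, Real.rpow_def_of_pos hm]
    congr 1
    simp [hS, Complex.mul_re]
  have hfr : ∀ w ∈ frontier (rect W H), ‖K w‖ ≤ 1 := by
    intro w hw
    have hwc : w ∈ closure (rect W H) := frontier_subset_closure hw
    obtain ⟨⟨a1, a2, a3, a4⟩, hh⟩ := frontier_rect hW hH hw
    rw [hnorm]
    have hzero : w.re = 0 ∨ w.im = -(H / 2) ∨ w.im = H / 2 → Phi W H w = 0 := by
      intro h
      rw [Phi]
      rcases h with h | h | h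
      · rw [h]; simp
      · rw [h]
        have : Real.pi * (-(H / 2)) / H = -(Real.pi / 2) := by field_simp
        rw [this, Real.cos_neg, Real.cos_pi_div_two]; simp
      · rw [h]
        have : Real.pi * (H / 2) / H = (Real.pi / 2) := by field_simp
        rw [this, Real.cos_pi_div_two]; simp
    by_cases h0 : w.re = 0 ∨ w.im = -(H / 2) ∨ w.im = H / 2
    · rw [hzero h0]
      simpa using h1 w hwc
    · have hre : w.re = W := by
        rcases hh with h | h | h | h
        · exact absurd (Or.inl h) h0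
        · exact h
        · exact absurd (Or.inr (Or.inl h)) h0
        · exact absurd (Or.inr (Or.inr h)) h0
      have hPhi : Phi W H w ≤ 1 := by
        rw [Phi, hre, div_le_one hsW]
        nlinarith [Real.cos_le_one (Real.pi * w.im / H)]
      have hb := h2 w hwc hre
      calc ‖k w‖ * m ^ (-Phi W H w) ≤ m * m ^ (-Phi W H w) := by gcongr
        _ = m ^ (1 - Phi W H w) := by
          rw [sub_eq_add_neg, Real.rpow_add hm, Real.rpow_one]
        _ ≤ 1 := Real.rpow_le_one hm.le hm1 (by linarith)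
  have := Complex.norm_le_of_forall_mem_frontier_norm_le (isBounded_rect W H) hKd hfr hz
  rw [hnorm] at this
  have hp : 0 < m ^ (Phi W H z) := Real.rpow_pos_of_pos hm _
  have e : m ^ (-Phi W H z) = (m ^ (Phi W H z))⁻¹ := Real.rpow_neg hm.le _
  rw [e] at this
  rwa [← div_eq_mul_inv, div_le_one hp] at this

/-- Schwarz transform combined with the two-constants theorem: a function with real part at most
`M` and modulus at most `b` on the right edge has small real part inside. -/
theorem schwarz_bound {W H M b : ℝ} (hW : 0 < W) (hH : 0 < H) (hb : 0 < b) (hbM : b ≤ M)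
    {h : ℂ → ℂ} (hh : DiffContOnCl ℂ h (rect W H))
    (h1 : ∀ z ∈ closure (rect W H), (h z).re ≤ M)
    (h2 : ∀ z ∈ closure (rect W H), z.re = W → ‖h z‖ ≤ b) {z : ℂ}
    (hz : z ∈ closure (rect W H)) : (h z).re ≤ 4 * M * (b / M) ^ (Phi W H z) := by
  have hM : 0 < M := by linarith
  have hden : ∀ z ∈ closure (rect W H), (2 * M - h z : ℂ) ≠ 0 := by
    intro z hz h0
    have := congrArg Complex.re h0
    have h3 := h1 z hz
    simp at this
    linarith
  set k : ℂ → ℂ := fun z => (2 * M - h z)⁻¹ * h z with hk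
  have hkd : DiffContOnCl ℂ k (rect W H) := by
    have e1 : DiffContOnCl ℂ (fun z => (2 * M - h z : ℂ)) (rect W H) :=
      (diffContOnCl_const (c := (2 * M : ℂ))).sub hh
    have e2 : DiffContOnCl ℂ (fun z => (2 * M - h z : ℂ)⁻¹) (rect W H) := e1.inv hden
    exact e2.smul hh
  have hle : ∀ z ∈ closure (rect W H), ‖h z‖ ≤ ‖(2 * M - h z : ℂ)‖ := by
    intro z hz
    have h3 := h1 z hz
    rw [Complex.norm_def, Complex.norm_def]
    apply Real.sqrt_le_sqrt
    rw [Complex.normSq_apply, Complex.normSq_apply]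
    simp
    nlinarith
  have hk1 : ∀ z ∈ closure (rect W H), ‖k z‖ ≤ 1 := by
    intro z hz
    have h3 := hle z hz
    have h4 : 0 < ‖(2 * M - h z : ℂ)‖ := norm_pos_iff.mpr (hden z hz)
    rw [hk]
    simp only [norm_mul, norm_inv]
    rw [inv_mul_le_iff₀ h4]
    linarith
  have hk2 : ∀ z ∈ closure (rect W H), z.re = W → ‖k z‖ ≤ b / M := by
    intro z hz hzW
    have h3 := h2 z hz hzW
    have h4 : 0 < ‖(2 * M - h z : ℂ)‖ := norm_pos_iff.mpr (hden z hz)
    have h5 : M ≤ ‖(2 * M - h z : ℂ)‖ := by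
      have : ‖(2 * M : ℂ)‖ - ‖h z‖ ≤ ‖(2 * M - h z : ℂ)‖ := norm_sub_norm_le _ _
      have e : ‖(2 * M : ℂ)‖ = 2 * M := by
        rw [norm_mul, Complex.norm_real, Real.norm_of_nonneg hM.le]; simp
      linarith
    rw [hk]
    simp only [norm_mul, norm_inv]
    rw [inv_mul_le_iff₀ h4]
    calc ‖h z‖ ≤ b := h3
      _ = M * (b / M) := by field_simp
      _ ≤ _ := by gcongr
  have hbM0 : 0 < b / M := by positivity
  have hbM1 : b / M ≤ 1 := by rwa [div_le_one hM]
  have hkz := two_const hW hH hbM0 hbM1 hkd hk1 hk2 hz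
  set τ := (b / M) ^ (Phi W H z) with hτ
  have hτ0 : 0 < τ := Real.rpow_pos_of_pos hbM0 _
  by_cases hc : 1 / 2 < τ
  · have := h1 z hz
    nlinarith
  · push Not at hc
    have e1 : h z * (1 + k z) = 2 * M * k z := by
      rw [hk]
      have := hden z hz
      field_simp
      ring
    have e2 : ‖h z‖ * ‖1 + k z‖ = 2 * M * ‖k z‖ := by
      rw [← norm_mul, e1, norm_mul, norm_mul, Complex.norm_real, Real.norm_of_nonneg hM.le]
      simp
    have e3 : 1 - ‖k z‖ ≤ ‖1 + k z‖ := by
      have := norm_sub_norm_le (1 : ℂ) (-(k z))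
      simp at this
      simpa using this
    have e4 : (h z).re ≤ ‖h z‖ := Complex.re_le_norm _
    have e5 : 0 ≤ ‖h z‖ := norm_nonneg _
    have e6 : 1 / 2 ≤ ‖1 + k z‖ := by linarith
    nlinarith

/-- Hadamard's three circles theorem. -/
theorem three_circles {G : ℂ → ℂ} {r R : ℝ} (hr : 0 < r) (hrR : r < R)
    (hG : DiffContOnCl ℂ G (ball 0 R)) {a b : ℝ}
    (ha : ∀ z : ℂ, ‖z‖ = r → ‖G z‖ ≤ a) (hb : ∀ z : ℂ, ‖z‖ = R → ‖G z‖ ≤ b) {z : ℂ}
    (hz : r ≤ ‖z‖) (hzR : ‖z‖ ≤ R) :
    ‖G z‖ ≤ a ^ (1 - (Real.log ‖z‖ - Real.log r) / (Real.log R - Real.log r)) *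
      b ^ ((Real.log ‖z‖ - Real.log r) / (Real.log R - Real.log r)) := by
  have hR : 0 < R := hr.trans hrR
  have hz0 : 0 < ‖z‖ := hr.trans_le hz
  have hzne : z ≠ 0 := norm_pos_iff.mp hz0
  have hul : Real.log r < Real.log R := Real.log_lt_log hr hrR
  have hnexp : ∀ w : ℂ, ‖Complex.exp w‖ = Real.exp w.re := fun w => Complex.norm_exp w
  have hbd : ∀ w : ℂ, ‖w‖ ≤ R → ‖G w‖ ≤ b := by
    intro w hw
    apply Complex.norm_le_of_forall_mem_frontier_norm_le isBounded_ball hG
    · intro u hu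
      rw [frontier_ball _ hR.ne'] at hu
      exact hb u (by simpa using hu)
    · rw [closure_ball _ hR.ne']
      simpa using hw
  have hd : DiffContOnCl ℂ (fun w => G (Complex.exp w))
      (Complex.HadamardThreeLines.verticalStrip (Real.log r) (Real.log R)) := by
    have h1 : DiffContOnCl ℂ Complex.exp
        (Complex.HadamardThreeLines.verticalStrip (Real.log r) (Real.log R)) :=
      Complex.differentiable_exp.diffContOnCl
    refine hG.comp h1 ?_
    intro w hw
    have hw2 : w.re < Real.log R := hw.2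
    rw [mem_ball_zero_iff, hnexp]
    calc Real.exp w.re < Real.exp (Real.log R) := Real.exp_lt_exp.mpr hw2
      _ = R := Real.exp_log hR
  have h3 := Complex.HadamardThreeLines.norm_le_interp_of_mem_verticalClosedStrip' (z := Complex.log z)
    (a := a) (b := b) hul (f := fun w => G (Complex.exp w)) ?_ hd ?_ ?_ ?_
  · simpa [Complex.exp_log hzne, Complex.log_re] using h3
  · constructor
    · simpa [Complex.log_re] using Real.log_le_log hr hz
    · simpa [Complex.log_re] using Real.log_le_log hz0 hzR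
  · refine ⟨b, ?_⟩
    rintro _ ⟨w, hw, rfl⟩
    apply hbd
    rw [hnexp]
    calc Real.exp w.re ≤ Real.exp (Real.log R) := Real.exp_le_exp.mpr hw.2
      _ = R := Real.exp_log hR
  · intro w hw
    apply ha
    have : w.re = Real.log r := hw
    rw [hnexp, this, Real.exp_log hr]
  · intro w hw
    apply hb
    have : w.re = Real.log R := hw
    rw [hnexp, this, Real.exp_log hR]

/-- Analytic logarithm on a convex open set. -/
theorem exists_log {U : Set ℂ} (hU : IsOpen U) (hc : Convex ℝ U) (hne : U.Nonempty) {g : ℂ → ℂ}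
    (hg : DifferentiableOn ℂ g U) (h0 : ∀ z ∈ U, g z ≠ 0) :
    ∃ h : ℂ → ℂ, DifferentiableOn ℂ h U ∧ ∀ z ∈ U, Complex.exp (h z) = g z := by
  have hsc : IsSimplyConnected U := by
    have : ContractibleSpace U := hc.contractibleSpace hne
    exact (inferInstance : SimplyConnectedSpace U)
  obtain ⟨h, hhc, hhe⟩ := Complex.exists_continuousOn_eqOn_exp_comp hsc hU hg.continuousOn
    (by rintro ⟨z, hz, h1⟩; exact h0 z hz h1)
  refine ⟨h, ?_, fun z hz => hhe hz⟩
  intro z hz
  have hs : HasStrictDerivAt Complex.exp (Complex.exp (h z)) (h z) := Complex.hasStrictDerivAt_exp _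
  have hne' : Complex.exp (h z) ≠ 0 := Complex.exp_ne_zero _
  have hgz : HasDerivAt g (deriv g z) z := ((hg z hz).differentiableAt (hU.mem_nhds hz)).hasDerivAt
  have hcz : ContinuousAt h z := hhc.continuousAt (hU.mem_nhds hz)
  have hinv := hs.to_localInverse hne'
  have hev := hs.hasStrictFDerivAt_equiv hne' |>.eventually_left_inverse
  have hev2 : ∀ᶠ w in 𝓝 z, h w = (hs.localInverse _ _ _ hne') (g w) := by
    have h5 : ∀ᶠ w in 𝓝 z, (hs.localInverse _ _ _ hne') (Complex.exp (h w)) = h w :=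
      hcz.eventually hev
    filter_upwards [h5, hU.mem_nhds hz] with w hw hwU
    rw [← hw]
    congr 1
    exact (hhe hwU)
  have hinv' : DifferentiableAt ℂ (hs.localInverse _ _ _ hne') (g z) := by
    have := hinv.hasDerivAt.differentiableAt
    have e : Complex.exp (h z) = g z := hhe hz
    rw [← e]
    exact this
  have : DifferentiableAt ℂ (fun w => (hs.localInverse _ _ _ hne') (g w)) z :=
    hinv'.comp z hgz.differentiableAt
  exact (this.congr_of_eventuallyEq hev2).differentiableWithinAt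

end Pool.Agent.H61.GLH
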