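import Mathlib

/-! Dividing out zeros of an analytic function and the resulting bound for the quotient. -/

set_option autoImplicit false

open Complex Set Filter Topology Metric

namespace Pool.Agent.H61.GLH

lemma factor_one {U : Set ℂ} (hU : IsOpen U) {f : ℂ → ℂ} (hf : AnalyticOnNhd ℂ f U) {w : ℂ}
    (hw : w ∈ U) (hfw : analyticOrderAt f w ≠ ⊤) :
    ∃ g : ℂ → ℂ, AnalyticOnNhd ℂ g U ∧ (∀ z ∈ U, f z = (z - w) ^ (analyticOrderNatAt f w) * g z) ∧
      g w ≠ 0 := by
  obtain ⟨g0, hg0, hg0w, hg0e⟩ := ((hf w hw).analyticOrderAt_ne_top).mp hfw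
  set n := analyticOrderNatAt f w with hn
  classical
  set g : ℂ → ℂ := fun z => if z = w then g0 w else f z / (z - w) ^ n with hg
  have hgw : g w = g0 w := by simp [hg]
  have hgz : ∀ z, z ≠ w → g z = f z / (z - w) ^ n := by
    intro z hz; simp [hg, hz]
  have hev : g =ᶠ[𝓝 w] g0 := by
    filter_upwards [hg0e] with z hz
    by_cases h : z = w
    · rw [h, hgw]
    · rw [hgz z h, hz, smul_eq_mul, mul_div_assoc, mul_comm, div_mul_cancel₀]
      exact pow_ne_zero _ (sub_ne_zero.mpr h)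
  refine ⟨g, ?_, ?_, by rw [hgw]; exact hg0w⟩
  · intro z hz
    by_cases h : z = w
    · rw [h]
      exact hg0.congr hev.symm
    · have h1 : AnalyticAt ℂ (fun z => f z / (z - w) ^ n) z := by
        refine (hf z hz).div ((analyticAt_id.sub analyticAt_const).pow n) ?_
        exact pow_ne_zero _ (sub_ne_zero.mpr h)
      refine h1.congr ?_
      filter_upwards [isOpen_ne.mem_nhds h] with y hy
      rw [hgz y hy]
  · intro z hz
    by_cases h : z = w
    · subst h
      rw [hgw]
      exact hg0e.self_of_nhds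
    · rw [hgz z h]
      have : (z - w) ^ n ≠ 0 := pow_ne_zero _ (sub_ne_zero.mpr h)
      field_simp

lemma factor_finset {U : Set ℂ} (hU : IsOpen U) (Z : Finset ℂ) : ∀ {f : ℂ → ℂ},
    AnalyticOnNhd ℂ f U → (∀ w ∈ Z, w ∈ U) → (∀ w ∈ Z, analyticOrderAt f w ≠ ⊤) →
    ∃ g : ℂ → ℂ, AnalyticOnNhd ℂ g U ∧
      (∀ z ∈ U, f z = (∏ w ∈ Z, (z - w) ^ (analyticOrderNatAt f w)) * g z) ∧
      ∀ w ∈ Z, g w ≠ 0 := by
  classical
  induction Z using Finset.induction_on with
  | empty =>
    intro f hf _ _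
    exact ⟨f, hf, fun z _ => by simp, by simp⟩
  | insert w Z hwZ ih =>
    intro f hf hZ hord
    have hwU : w ∈ U := hZ w (Finset.mem_insert_self _ _)
    obtain ⟨g1, hg1, hg1e, hg1w⟩ := factor_one hU hf hwU (hord w (Finset.mem_insert_self _ _))
    set n := analyticOrderNatAt f w with hn
    have hsame : ∀ v ∈ Z, analyticOrderAt g1 v = analyticOrderAt f v := by
      intro v hv
      have hvU := hZ v (Finset.mem_insert_of_mem hv)
      have hvw : v ≠ w := fun h => hwZ (h ▸ hv)
      have hp : AnalyticAt ℂ (fun z : ℂ => (z - w) ^ n) v :=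
        (analyticAt_id.sub analyticAt_const).pow n
      have e1 : analyticOrderAt f v = analyticOrderAt ((fun z : ℂ => (z - w) ^ n) * g1) v := by
        apply analyticOrderAt_congr
        filter_upwards [hU.mem_nhds hvU] with z hz
        rw [hg1e z hz, Pi.mul_apply]
      have e2 : analyticOrderAt (fun z : ℂ => (z - w) ^ n) v = 0 := by
        rw [hp.analyticOrderAt_eq_zero]
        exact pow_ne_zero _ (sub_ne_zero.mpr hvw)
      rw [e1, analyticOrderAt_mul hp (hg1 v hvU), e2, zero_add]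
    have hsame' : ∀ v ∈ Z, analyticOrderNatAt g1 v = analyticOrderNatAt f v := by
      intro v hv
      rw [analyticOrderNatAt, analyticOrderNatAt, hsame v hv]
    obtain ⟨g, hg, hge, hgZ⟩ := ih hg1 (fun v hv => hZ v (Finset.mem_insert_of_mem hv))
      (fun v hv => by rw [hsame v hv]; exact hord v (Finset.mem_insert_of_mem hv))
    refine ⟨g, hg, ?_, ?_⟩
    · intro z hz
      rw [Finset.prod_insert hwZ, hg1e z hz, hge z hz, mul_assoc]
      congr 2
      exact Finset.prod_congr rfl fun v hv => by rw [hsame' v hv]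
    · intro v hv
      rcases Finset.mem_insert.mp hv with rfl | hv
      · intro h0
        apply hg1w
        rw [hge v hwU, h0, mul_zero]
      · exact hgZ v hv

/-- Bound for the quotient at the centre of a disc. -/
theorem quotient_bound {w0 : ℂ} {s M : ℝ} (hs : 0 < s) {f g : ℂ → ℂ}
    (hg : DiffContOnCl ℂ g (ball w0 s)) (Z : Finset ℂ) (m : ℂ → ℕ)
    (hfg : ∀ z ∈ sphere w0 s, f z = (∏ w ∈ Z, (z - w) ^ (m w)) * g z)
    (hM : ∀ z ∈ sphere w0 s, ‖f z‖ ≤ M) : ‖g w0‖ * s ^ (∑ w ∈ Z, m w) ≤ M := by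
  classical
  set B : ℂ → ℂ → ℂ := fun w z => if ‖w - w0‖ < s then
    ((s : ℂ) ^ 2 - (starRingEnd ℂ) (w - w0) * (z - w0)) / s else z - w with hB
  have hsC : (s : ℂ) ≠ 0 := by exact_mod_cast hs.ne'
  have hBd : ∀ w, Differentiable ℂ (B w) := by
    intro w
    by_cases h : ‖w - w0‖ < s
    · have : B w = fun z => ((s : ℂ) ^ 2 - (starRingEnd ℂ) (w - w0) * (z - w0)) / s := by
        funext z; simp [hB, h]
      rw [this]; fun_prop
    · have : B w = fun z => z - w := by
        funext z; simp [hB, h]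
      rw [this]; fun_prop
  have hBs : ∀ w, ∀ z ∈ sphere w0 s, ‖B w z‖ = ‖z - w‖ := by
    intro w z hz
    have hz' : ‖z - w0‖ = s := by simpa [dist_eq_norm] using hz
    by_cases h : ‖w - w0‖ < s
    · have e : B w z = ((s : ℂ) ^ 2 - (starRingEnd ℂ) (w - w0) * (z - w0)) / s := by
        simp [hB, h]
      rw [e]
      have h2 : (s : ℂ) ^ 2 = (starRingEnd ℂ) (z - w0) * (z - w0) := by
        rw [← Complex.normSq_eq_conj_mul_self, Complex.normSq_eq_norm_sq, hz']
        push_cast; ring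
      rw [h2, ← sub_mul, ← map_sub, norm_div, norm_mul, Complex.norm_conj, hz',
        Complex.norm_real, Real.norm_of_nonneg hs.le]
      have : z - w0 - (w - w0) = z - w := by ring
      rw [this]
      field_simp
    · simp [hB, h]
  have hB0 : ∀ w, s ≤ ‖B w w0‖ := by
    intro w
    by_cases h : ‖w - w0‖ < s
    · have e : B w w0 = s := by
        simp only [hB, h, if_true, sub_self, mul_zero, sub_zero]
        field_simp
      rw [e, Complex.norm_real, Real.norm_of_nonneg hs.le]
    · have e : B w w0 = w0 - w := by simp [hB, h]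
      rw [e, norm_sub_rev]
      exact not_lt.mp h
  set k : ℂ → ℂ := fun z => (∏ w ∈ Z, (B w z) ^ (m w)) * g z with hk
  have hkd : DiffContOnCl ℂ k (ball w0 s) := by
    have h1 : Differentiable ℂ (fun z => ∏ w ∈ Z, (B w z) ^ (m w)) := by
      apply Differentiable.fun_finsetProd
      intro w _
      exact (hBd w).pow _
    exact h1.diffContOnCl.smul hg
  have hkM : ∀ z ∈ frontier (ball w0 s), ‖k z‖ ≤ M := by
    intro z hz
    rw [frontier_ball _ hs.ne'] at hz
    have : ‖k z‖ = ‖f z‖ := by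
      rw [hk, hfg z hz]
      simp only [norm_mul, norm_prod, norm_pow]
      congr 1
      exact Finset.prod_congr rfl fun w _ => by rw [hBs w z hz]
    rw [this]
    exact hM z hz
  have h3 := Complex.norm_le_of_forall_mem_frontier_norm_le isBounded_ball hkd hkM
    (subset_closure (mem_ball_self hs))
  have h4 : ‖k w0‖ = (∏ w ∈ Z, ‖B w w0‖ ^ (m w)) * ‖g w0‖ := by
    rw [hk]; simp only [norm_mul, norm_prod, norm_pow]
  have h5 : s ^ (∑ w ∈ Z, m w) ≤ ∏ w ∈ Z, ‖B w w0‖ ^ (m w) := by
    rw [← Finset.prod_pow_eq_pow_sum]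
    apply Finset.prod_le_prod
    · intro w _; positivity
    · intro w _
      exact pow_le_pow_left₀ hs.le (hB0 w) _
  calc ‖g w0‖ * s ^ (∑ w ∈ Z, m w) ≤ ‖g w0‖ * ∏ w ∈ Z, ‖B w w0‖ ^ (m w) := by gcongr
    _ = ‖k w0‖ := by rw [h4, mul_comm]
    _ ≤ M := h3

end Pool.Agent.H61.GLH
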