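import Pool.Agent.H61.GLH.Disc

/-! Backlund's equivalence with exponentially short windows, abstract form. -/

set_option autoImplicit false

open Complex Set Filter Topology Metric

namespace Pool.Agent.H61.GLH

section
variable {ι : Type*} {q : ι → ℝ} {f φ : ι → ℂ → ℂ}

/-- At most `n` zeros (with multiplicity) with real part at least `1/2 + δ` and imaginary part
in `[a, b]`. -/
def FewZeros (g : ℂ → ℂ) (δ a b n : ℝ) : Prop :=
  ∀ Z : Finset ℂ, (∀ z ∈ Z, 1 / 2 + δ ≤ z.re ∧ a ≤ z.im ∧ z.im ≤ b) →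
    ((∑ z ∈ Z, analyticOrderNatAt g z : ℕ) : ℝ) ≤ n

/-- Zero count by Jensen's inequality. -/
lemma jensen_count {g : ℂ → ℂ} {p : ℂ} {r R M : ℝ} {U : Set ℂ} (hU : IsOpen U)
    (hUc : IsPreconnected U) (hg : DifferentiableOn ℂ g U) (hr : 0 < r) (hR : 0 < R)
    (hball : closedBall p R ⊆ U) (hgp : g p ≠ 0) (hM : ∀ z ∈ sphere p R, ‖g z‖ ≤ M)
    (Z : Finset ℂ) (hZ : ∀ z ∈ Z, z ∈ U ∧ ‖z - p‖ ≤ r) :
    ‖g p‖ * R ^ (∑ z ∈ Z, analyticOrderNatAt g z) ≤ M * r ^ (∑ z ∈ Z, analyticOrderNatAt g z) := by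
  have hga : AnalyticOnNhd ℂ g U := hg.analyticOnNhd hU
  have hpU : p ∈ U := hball (mem_closedBall_self hR.le)
  have hord : ∀ w ∈ U, analyticOrderAt g w ≠ ⊤ := by
    intro w hw
    have : analyticOrderAt g p ≠ ⊤ := by
      rw [(hga p hpU).analyticOrderAt_eq_zero.mpr hgp]; simp
    exact hga.analyticOrderAt_ne_top_of_isPreconnected hUc hpU hw this
  obtain ⟨k, hk, hke, -⟩ := factor_finset hU Z hga (fun w hw => (hZ w hw).1)
    (fun w hw => hord w (hZ w hw).1)
  have hkd : DiffContOnCl ℂ k (ball p R) := by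
    apply DifferentiableOn.diffContOnCl
    rw [closure_ball _ hR.ne']
    exact hk.differentiableOn.mono hball
  have h1 := quotient_bound (M := M) hR hkd Z (fun w => analyticOrderNatAt g w)
    (fun z hz => hke z (hball (sphere_subset_closedBall hz))) hM
  have h2 : ‖g p‖ ≤ r ^ (∑ z ∈ Z, analyticOrderNatAt g z) * ‖k p‖ := by
    rw [hke p hpU, norm_mul, norm_prod]
    gcongr
    calc ∏ i ∈ Z, ‖(p - i) ^ analyticOrderNatAt g i‖ ≤ ∏ i ∈ Z, r ^ analyticOrderNatAt g i := by
          apply Finset.prod_le_prod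
          · intro w _; positivity
          · intro w hw
            rw [norm_pow]
            apply pow_le_pow_left₀ (norm_nonneg _)
            rw [norm_sub_rev]
            exact (hZ w hw).2
      _ = _ := by rw [Finset.prod_pow_eq_pow_sum]
  calc ‖g p‖ * R ^ (∑ z ∈ Z, analyticOrderNatAt g z)
      ≤ (r ^ (∑ z ∈ Z, analyticOrderNatAt g z) * ‖k p‖) * R ^ (∑ z ∈ Z, analyticOrderNatAt g z) := by
        gcongr
    _ = (‖k p‖ * R ^ (∑ z ∈ Z, analyticOrderNatAt g z)) * r ^ (∑ z ∈ Z, analyticOrderNatAt g z) := by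
        ring
    _ ≤ M * r ^ (∑ z ∈ Z, analyticOrderNatAt g z) := by gcongr

/-- Under the Lindelof bound there are few zeros to the right of `1/2 + δ`. -/
theorem few_zeros_of_HB {K A : ℝ} (hG : ∀ i, Good K A (q i) (f i) (φ i)) (hK : 1 ≤ K) (hA : 0 ≤ A)
    (hL : ∀ ε > 0, HB q f ε) {δ κ : ℝ} (hδ : 0 < δ) (hκ : 0 < κ) :
    ∃ K₀ : ℝ, ∀ i, ∀ t : ℝ, K₀ ≤ q i * (1 + |t|) →
      FewZeros (f i) δ t (t + 1) (κ * Real.log (q i * (1 + |t|))) := by
  set δ' := min δ 1 with hδ'
  have hδ'0 : 0 < δ' := lt_min hδ one_pos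
  have hδ'1 : δ' ≤ 1 := min_le_right _ _
  have hδ'δ : δ' ≤ δ := min_le_left _ _
  set X := 1 / δ' + 2 with hX
  have hX1 : 1 ≤ 1 / δ' := by rw [le_div_iff₀ hδ'0]; linarith
  have hX3 : 3 ≤ X := by linarith
  set R := X - 1 / 2 with hR
  set r := X - 1 / 2 - δ' / 2 with hr
  have hr0 : 0 < r := by linarith
  have hR0 : 0 < R := by linarith
  have hrR : 1 < R / r := by rw [one_lt_div hr0]; linarith
  have hlog : 0 < Real.log (R / r) := Real.log_pos hrR
  set ε := κ * Real.log (R / r) / 2 with hε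
  have hε0 : 0 < ε := by positivity
  obtain ⟨B, hB, hHB⟩ := hL ε hε0
  set B4 := K + 4 * K * B * Real.exp (1 + ε ^ 2 / 4) * (2 + X) ^ ε with hB4
  have hB40 : 0 < B4 := by positivity
  have hB4K : K ≤ B4 := by
    have : 0 ≤ 4 * K * B * Real.exp (1 + ε ^ 2 / 4) * (2 + X) ^ ε := by positivity
    linarith
  refine ⟨max (X + 4) ((3 * B4) ^ (1 / ε)), ?_⟩
  intro i t hC
  have hGi := hG i
  have hq := hGi.hq
  set C := q i * (1 + |t|) with hCdef
  have hCX : X + 4 ≤ C := (le_max_left _ _).trans hC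
  have hCB : (3 * B4) ^ (1 / ε) ≤ C := (le_max_right _ _).trans hC
  have hC1 : 1 ≤ C := by linarith
  have hC0 : 0 < C := by linarith
  have h3B : 3 * B4 ≤ C ^ ε := by
    have h1 : ((3 * B4) ^ (1 / ε)) ^ ε ≤ C ^ ε :=
      Real.rpow_le_rpow (by positivity) hCB hε0.le
    rwa [← Real.rpow_mul (by positivity), one_div_mul_cancel hε0.ne', Real.rpow_one] at h1
  set p : ℂ := (X : ℂ) + ((t + 1 / 2 : ℝ) : ℂ) * I with hp
  have hpre : p.re = X := by simp [hp]
  have hpim : p.im = t + 1 / 2 := by simp [hp]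
  set U := ball p (R + 1 / 4) with hU
  have hUre : ∀ z ∈ U, 1 / 4 < z.re ∧ |z.im - t| < X + 1 := by
    intro z hz
    rw [hU, mem_ball, dist_eq_norm] at hz
    have h1 := Complex.abs_re_le_norm (z - p)
    have h2 := Complex.abs_im_le_norm (z - p)
    rw [Complex.sub_re, hpre] at h1
    rw [Complex.sub_im, hpim] at h2
    have h3 := h1.trans_lt hz
    have h4 := h2.trans_lt hz
    rw [abs_lt] at h3 h4
    refine ⟨by linarith, ?_⟩
    rw [abs_lt]
    constructor <;> linarith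
  have him : ∀ z ∈ U, 1 < q i ∨ 1 ≤ |z.im| := by
    intro z hz
    by_cases h8 : 1 < q i
    · exact Or.inl h8
    · right
      have hqe : q i = 1 := le_antisymm (not_lt.mp h8) hq
      rw [hCdef, hqe, one_mul] at hCX
      have h9 : |t| ≤ |z.im| + |t - z.im| := by
        have := abs_add_le z.im (t - z.im)
        rwa [add_sub_cancel] at this
      have h10 := (hUre z hz).2
      rw [abs_sub_comm] at h10
      linarith
  have hfd : DifferentiableOn ℂ (f i) U := by
    intro z hz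
    refine (hGi.diff z ?_).differentiableWithinAt
    rcases him z hz with h8 | h8
    · exact Or.inr h8
    · left
      rintro rfl
      simp at h8
      linarith
  have hball : closedBall p R ⊆ U := closedBall_subset_ball (by linarith)
  have hfp : 1 / 3 ≤ ‖f i p‖ := by
    have h3 := hGi.near1 p (by rw [hpre]; linarith)
    have := norm_sub_norm_le (1 : ℂ) (1 - f i p)
    rw [norm_one, sub_sub_cancel, norm_sub_rev] at this
    linarith
  have hfp0 : f i p ≠ 0 := by
    intro h0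
    rw [h0] at hfp
    simp at hfp
    linarith
  have hM : ∀ z ∈ sphere p R, ‖f i z‖ ≤ B4 * C ^ ε := by
    intro z hz
    have hzU := hball (sphere_subset_closedBall hz)
    have hCe : 1 ≤ C ^ ε := Real.one_le_rpow hC1 hε0.le
    by_cases h32 : 3 / 2 ≤ z.re
    · calc ‖f i z‖ ≤ K := hGi.far z h32
        _ ≤ B4 * 1 := by linarith
        _ ≤ B4 * C ^ ε := by gcongr
    · push Not at h32
      have hz12 : 1 / 2 ≤ z.re := by
        have h1 := Complex.abs_re_le_norm (z - p)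
        rw [mem_sphere, dist_eq_norm] at hz
        rw [hz, Complex.sub_re, hpre, abs_le] at h1
        linarith
      have h1 := conv_bound hGi hK hA hε0.le hB (hHB i) hz12 h32.le (him z hzU)
      have h2 : q i * (1 + |z.im|) ≤ (2 + X) * C := by
        have h5 := cond_le (u := z.im) (u0 := t) hq
        have h6 := (hUre z hzU).2
        calc q i * (1 + |z.im|) ≤ C * (1 + |z.im - t|) := h5
          _ ≤ C * (1 + (X + 1)) := by gcongr
          _ = (2 + X) * C := by ring
      have h3 : (q i * (1 + |z.im|)) ^ ε ≤ (2 + X) ^ ε * C ^ ε := by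
        rw [← Real.mul_rpow (by positivity) hC0.le]
        exact Real.rpow_le_rpow (by positivity) h2 hε0.le
      calc ‖f i z‖ ≤ 4 * K * B * Real.exp (1 + ε ^ 2 / 4) * (q i * (1 + |z.im|)) ^ ε := h1
        _ ≤ 4 * K * B * Real.exp (1 + ε ^ 2 / 4) * ((2 + X) ^ ε * C ^ ε) := by gcongr
        _ = (4 * K * B * Real.exp (1 + ε ^ 2 / 4) * (2 + X) ^ ε) * C ^ ε := by ring
        _ ≤ B4 * C ^ ε := by
          gcongr
          rw [hB4]; linarith
  intro Z hZ
  classical
  set Z' := Z.filter (fun z => analyticOrderNatAt (f i) z ≠ 0) with hZ'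
  have hsum : ∑ z ∈ Z, analyticOrderNatAt (f i) z = ∑ z ∈ Z', analyticOrderNatAt (f i) z :=
    (Finset.sum_filter_ne_zero Z).symm
  rw [hsum]
  have hZ'p : ∀ z ∈ Z', z ∈ U ∧ ‖z - p‖ ≤ r := by
    intro z hz
    rw [hZ', Finset.mem_filter] at hz
    obtain ⟨hz1, hz2⟩ := hz
    obtain ⟨a1, a2, a3⟩ := hZ z hz1
    have hzero : f i z = 0 := apply_eq_zero_of_analyticOrderNatAt_ne_zero hz2
    have hz1' : z.re ≤ 1 := by
      by_contra hlt
      exact hGi.nz z (not_le.mp hlt) hzero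
    have hnorm : ‖z - p‖ ≤ r := by
      rw [Complex.norm_def, Real.sqrt_le_left hr0.le, Complex.normSq_apply, Complex.sub_re,
        Complex.sub_im, hpre, hpim]
      have e1 : (z.re - X) * (z.re - X) ≤ (X - 1 / 2 - δ') ^ 2 := by
        have h1 : 0 ≤ X - z.re := by linarith
        have h2 : X - z.re ≤ X - 1 / 2 - δ' := by linarith
        have h3 : (z.re - X) * (z.re - X) = (X - z.re) ^ 2 := by ring
        rw [h3]
        exact pow_le_pow_left₀ h1 h2 2
      have e2 : (z.im - (t + 1 / 2)) * (z.im - (t + 1 / 2)) ≤ 1 / 4 := by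
        have h1 : |z.im - (t + 1 / 2)| ≤ 1 / 2 := by rw [abs_le]; constructor <;> linarith
        have h2 := pow_le_pow_left₀ (abs_nonneg _) h1 2
        rw [sq_abs] at h2
        linarith
      have e3 : δ' * X = 1 + 2 * δ' := by
        rw [hX]; field_simp
      have e4 : (X - 1 / 2 - δ') ^ 2 + 1 / 4 ≤ r ^ 2 := by
        have e6 : (X - 1 / 2 - δ' / 2) ^ 2 - (X - 1 / 2 - δ') ^ 2 =
            δ' * X - δ' / 2 - 3 / 4 * δ' ^ 2 := by ring
        have e7 : δ' ^ 2 ≤ δ' := by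
          rw [pow_two]; exact mul_le_of_le_one_left hδ'0.le hδ'1
        rw [hr]
        linarith
      linarith
    refine ⟨?_, hnorm⟩
    rw [hU, mem_ball, dist_eq_norm]
    linarith
  have hj := jensen_count (M := B4 * C ^ ε) isOpen_ball (convex_ball p (R + 1 / 4)).isPreconnected
    hfd hr0 hR0 hball hfp0 hM Z' hZ'p
  set n := ∑ z ∈ Z', analyticOrderNatAt (f i) z with hn
  have hj2 : (R / r) ^ n ≤ C ^ ε * C ^ ε := by
    rw [div_pow, div_le_iff₀ (by positivity)]
    have h1 : (1 / 3) * R ^ n ≤ B4 * C ^ ε * r ^ n := by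
      refine le_trans ?_ hj
      gcongr
    calc R ^ n = 3 * ((1 / 3) * R ^ n) := by ring
      _ ≤ 3 * (B4 * C ^ ε * r ^ n) := by gcongr
      _ = (3 * B4) * C ^ ε * r ^ n := by ring
      _ ≤ C ^ ε * C ^ ε * r ^ n := by gcongr
  have hj3 : (n : ℝ) * Real.log (R / r) ≤ 2 * ε * Real.log C := by
    have h1 := Real.log_le_log (by positivity) hj2
    rw [Real.log_pow, Real.log_mul (by positivity) (by positivity), Real.log_rpow hC0] at h1
    linarith
  have hj4 : 2 * ε = κ * Real.log (R / r) := by rw [hε]; ring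
  rw [hj4] at hj3
  have h5 : (n : ℝ) * Real.log (R / r) ≤ (κ * Real.log C) * Real.log (R / r) := by linarith
  exact le_of_mul_le_mul_right h5 hlog

/-- The window condition. -/
def ZeroWindows (q : ι → ℝ) (f : ι → ℂ → ℂ) : Prop :=
  ∀ ε > 0, ∃ η : ℝ, 0 < η ∧ η ≤ ε ∧ ∀ δ > 0, ∀ κ > 0, ∃ K₀ : ℝ, ∀ i, ∀ t : ℝ,
    K₀ ≤ q i * (1 + |t|) → ∃ a : ℝ, t ≤ a ∧ a + Real.exp (-(ε / η)) ≤ t + η ∧
      FewZeros (f i) δ a (a + Real.exp (-(ε / η))) (κ * Real.log (q i * (1 + |t|)))

theorem zeroWindows_of_HB {K A : ℝ} (hG : ∀ i, Good K A (q i) (f i) (φ i)) (hK : 1 ≤ K)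
    (hA : 0 ≤ A) (hL : ∀ ε > 0, HB q f ε) : ZeroWindows q f := by
  intro ε hε
  set η := min ε (ε ^ 2 / 2) with hη
  have hη0 : 0 < η := lt_min hε (by positivity)
  have hη1 : η ≤ ε := min_le_left _ _
  have hη2 : η ≤ ε ^ 2 / 2 := min_le_right _ _
  have hexp : Real.exp (-(ε / η)) ≤ η := by
    rw [Real.exp_neg]
    have h1 : (ε / η) ^ 2 / 2 ≤ Real.exp (ε / η) := by
      have := Real.quadratic_le_exp_of_nonneg (show 0 ≤ ε / η by positivity)
      have h2 : 0 < ε / η := by positivity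
      linarith
    have h3 : 1 / η ≤ Real.exp (ε / η) := by
      refine le_trans ?_ h1
      rw [div_pow, div_div, div_le_div_iff₀ hη0 (by positivity)]
      nlinarith
    rw [inv_le_comm₀ (Real.exp_pos _) hη0]
    rwa [one_div] at h3
  have hexp1 : Real.exp (-(ε / η)) ≤ 1 := by
    rw [Real.exp_le_one_iff]
    have : 0 < ε / η := by positivity
    linarith
  refine ⟨η, hη0, hη1, ?_⟩
  intro δ hδ κ hκ
  obtain ⟨K₀, hK₀⟩ := few_zeros_of_HB hG hK hA hL hδ hκ
  refine ⟨K₀, fun i t ht => ⟨t, le_rfl, by linarith, ?_⟩⟩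
  intro Z hZ
  exact hK₀ i t ht Z fun z hz => ⟨(hZ z hz).1, (hZ z hz).2.1, (hZ z hz).2.2.trans (by linarith)⟩

theorem HB_of_zeroWindows {K A : ℝ} (hG : ∀ i, Good K A (q i) (f i) (φ i)) (hK : 1 ≤ K)
    (hA : 0 ≤ A) (hZ : ZeroWindows q f) : ∀ ε > 0, HB q f ε := by
  intro E hE
  rcases isEmpty_or_nonempty ι with hι | ⟨⟨i0⟩⟩
  · exact ⟨1, le_rfl, fun i => (hι.false i).elim⟩
  set ε := min (E / 5) (1 / 64) with hε
  have hε0 : 0 < ε := lt_min (by positivity) (by norm_num)
  have hε1 : ε ≤ E / 5 := min_le_left _ _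
  have hε2 : ε ≤ 1 / 64 := min_le_right _ _
  obtain ⟨η, hη0, hηε, hwin⟩ := hZ ε hε0
  set h := Real.exp (-(ε / η)) with hh
  have hh0 : 0 < h := Real.exp_pos _
  have hhη : h ≤ η := by
    obtain ⟨K₀, hK₀⟩ := hwin 1 one_pos 1 one_pos
    have hq := (hG i0).hq
    obtain ⟨a, ha1, ha2, -⟩ := hK₀ i0 K₀ (by
      have h1 := le_abs_self K₀
      have h2 := abs_nonneg K₀
      nlinarith)
    linarith
  obtain ⟨δ, hδ, κ, hκ, K₁, hdisc⟩ := disc_of_zeros (K := K) (A := A) hK hA hh0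
    (by linarith) hε0 (by linarith)
  obtain ⟨K₂, hK₂⟩ := hwin δ hδ κ hκ
  apply exponent_le hG hK hA (η := η) (r := h / 32) (ε₁ := ε) (K₀ := max K₁ K₂) (by positivity)
    (by linarith) (by linarith) hε0.le
  · intro i t ht
    obtain ⟨a, ha1, ha2, ha3⟩ := hK₂ i t ((le_max_right _ _).trans ht)
    refine ⟨a + h / 2, by linarith, by linarith, ?_⟩
    apply hdisc (q i) (f i) (φ i) (hG i) t (a + h / 2) ((le_max_left _ _).trans ht)
    · rw [abs_le]; constructor <;> linarith
    · intro Z hZ'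
      apply ha3 Z
      intro z hz
      obtain ⟨b1, b2⟩ := hZ' z hz
      rw [abs_le] at b2
      exact ⟨b1, by linarith, by linarith⟩
  · have e1 : Real.log (η / (h / 32)) = Real.log (32 * η) + ε / η := by
      have : η / (h / 32) = (32 * η) / h := by field_simp
      rw [this, Real.log_div (by positivity) hh0.ne', hh, Real.log_exp]; ring
    have e2 : Real.log (32 * η) ≤ 0 := by
      apply Real.log_nonpos (by positivity)
      linarith
    rw [e1]
    have e3 : 2 * η * (Real.log (32 * η) + ε / η) ≤ 2 * ε := by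
      have : 2 * η * (Real.log (32 * η) + ε / η) = 2 * η * Real.log (32 * η) + 2 * ε := by
        field_simp
      rw [this]
      nlinarith
    linarith

end

end Pool.Agent.H61.GLH
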