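import Pool.Agent.H61.GLH.Step

/-! From few zeros in a window to a good bound in a disc centred on the critical line. -/

set_option autoImplicit false

open Complex Set Filter Topology Metric

namespace Pool.Agent.H61.GLH

/-- Open rectangle `|Re s - 1/2| < x`, `|Im s - y0| < ρ`. -/
def crect (x y0 ρ : ℝ) : Set ℂ := Ioo (1 / 2 - x) (1 / 2 + x) ×ℂ Ioo (y0 - ρ) (y0 + ρ)

/-- Localised three lines argument. -/
lemma local_lines {f : ℂ → ℂ} {x ρ lam M : ℝ} {s0 : ℂ} (hx : 0 < x) (hρ : 0 < ρ) (hlam : 0 ≤ lam)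
    (hs0 : |s0.re - 1 / 2| ≤ x)
    (hf : DiffContOnCl ℂ f (crect x s0.im ρ))
    (hside : ∀ s : ℂ, |s.re - 1 / 2| = x → |s.im - s0.im| ≤ ρ → ‖f s‖ ≤ M)
    (htop : ∀ s : ℂ, |s.re - 1 / 2| ≤ x → |s.im - s0.im| = ρ → ‖f s‖ ≤ M * Real.exp (lam * ρ ^ 2))
    (_hM : 0 ≤ M) :
    ‖f s0‖ ≤ M * Real.exp (lam * (2 * x) ^ 2) := by
  set F : ℂ → ℂ := fun s => Complex.exp ((lam : ℂ) * (s - s0) ^ 2) * f s with hF
  have hFd : DiffContOnCl ℂ F (crect x s0.im ρ) := by
    have h1 : DiffContOnCl ℂ (fun s => Complex.exp ((lam : ℂ) * (s - s0) ^ 2)) (crect x s0.im ρ) :=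
      Differentiable.diffContOnCl (by fun_prop)
    exact h1.smul hf
  have hn : ∀ s, ‖F s‖ = Real.exp (lam * ((s.re - s0.re) ^ 2 - (s.im - s0.im) ^ 2)) * ‖f s‖ := by
    intro s
    rw [hF]
    simp only
    rw [norm_mul, Complex.norm_exp, Complex.re_ofReal_mul]
    congr 3
    simp [pow_two]
  have hclos : closure (crect x s0.im ρ) =
      Icc (1 / 2 - x) (1 / 2 + x) ×ℂ Icc (s0.im - ρ) (s0.im + ρ) := by
    rw [crect, closure_reProdIm, closure_Ioo (by linarith), closure_Ioo (by linarith)]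
  rw [abs_le] at hs0
  have hs0c : s0 ∈ closure (crect x s0.im ρ) := by
    rw [hclos, mem_reProdIm]
    exact ⟨⟨by linarith, by linarith⟩, ⟨by linarith, by linarith⟩⟩
  have hb : Bornology.IsBounded (crect x s0.im ρ) :=
    (isBounded_Ioo _ _).reProdIm (isBounded_Ioo _ _)
  have hfr : ∀ s ∈ frontier (crect x s0.im ρ), ‖F s‖ ≤ M * Real.exp (lam * (2 * x) ^ 2) := by
    intro s hs
    have hsc : s ∈ closure (crect x s0.im ρ) := frontier_subset_closure hs
    rw [hclos, mem_reProdIm] at hsc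
    obtain ⟨⟨a1, a2⟩, ⟨a3, a4⟩⟩ := hsc
    have hsx : |s.re - 1 / 2| ≤ x := by rw [abs_le]; constructor <;> linarith
    have hsy : |s.im - s0.im| ≤ ρ := by rw [abs_le]; constructor <;> linarith
    have hre2 : (s.re - s0.re) ^ 2 ≤ (2 * x) ^ 2 := by
      apply sq_le_sq'
      · linarith
      · linarith
    have hor : |s.re - 1 / 2| = x ∨ |s.im - s0.im| = ρ := by
      rw [crect, frontier_reProdIm, frontier_Ioo (by linarith), frontier_Ioo (by linarith)] at hs
      rcases hs with hs | hs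
      · right
        rcases hs.2 with h | h
        · have h' : s.im = s0.im - ρ := h
          rw [h', sub_sub_cancel_left, abs_neg, abs_of_pos hρ]
        · have h' : s.im = s0.im + ρ := h
          rw [h', add_sub_cancel_left, abs_of_pos hρ]
      · left
        rcases hs.1 with h | h
        · have h' : s.re = 1 / 2 - x := h
          rw [h', sub_sub_cancel_left, abs_neg, abs_of_pos hx]
        · have h' : s.re = 1 / 2 + x := h
          rw [h', add_sub_cancel_left, abs_of_pos hx]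
    rw [hn]
    rcases hor with h | h
    · have h1 := hside s h hsy
      calc Real.exp (lam * ((s.re - s0.re) ^ 2 - (s.im - s0.im) ^ 2)) * ‖f s‖
          ≤ Real.exp (lam * (2 * x) ^ 2) * M := by
            gcongr
            nlinarith [sq_nonneg (s.im - s0.im)]
        _ = _ := mul_comm _ _
    · have h1 := htop s hsx h
      have h2 : (s.im - s0.im) ^ 2 = ρ ^ 2 := by rw [← sq_abs, h]
      calc Real.exp (lam * ((s.re - s0.re) ^ 2 - (s.im - s0.im) ^ 2)) * ‖f s‖
          ≤ Real.exp (lam * ((2 * x) ^ 2 - ρ ^ 2)) * (M * Real.exp (lam * ρ ^ 2)) := by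
            rw [h2]
            gcongr
        _ = M * (Real.exp (lam * ((2 * x) ^ 2 - ρ ^ 2)) * Real.exp (lam * ρ ^ 2)) := by ring
        _ = _ := by
            rw [← Real.exp_add]
            congr 2; ring
  have h3 := Complex.norm_le_of_forall_mem_frontier_norm_le hb hFd hfr hs0c
  rw [hn] at h3
  simpa using h3

lemma aux_e3 {A δ ε ρ : ℝ} (hA : 0 ≤ A) (hδ0 : 0 < δ) (hδ1 : δ ≤ 1)
    (h : δ * (288 * (A + 1)) ≤ ε * ρ ^ 2) : 36 * (A + 1) * δ ^ 2 ≤ ε / 8 * ρ ^ 2 := by
  have e4 : δ ^ 2 ≤ δ := by nlinarith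
  have e5 : 36 * (A + 1) * δ ^ 2 ≤ 36 * (A + 1) * δ := by gcongr
  linarith

/-- Few zeros in a window imply a good bound in a disc. -/
theorem disc_of_zeros {K A : ℝ} (hK : 1 ≤ K) (hA : 0 ≤ A) {h ε : ℝ} (hh : 0 < h) (hh1 : h ≤ 1)
    (hε : 0 < ε) (hhε : h ≤ ε) :
    ∃ δ > 0, ∃ κ > 0, ∃ K₀ : ℝ, ∀ (q : ℝ) (f φ : ℂ → ℂ), Good K A q f φ → ∀ t c : ℝ,
      K₀ ≤ q * (1 + |t|) → |c - t| ≤ 1 →
      (∀ Z : Finset ℂ, (∀ z ∈ Z, 1 / 2 + δ ≤ z.re ∧ |z.im - c| ≤ h / 2) →
        ((∑ z ∈ Z, analyticOrderNatAt f z : ℕ) : ℝ) ≤ κ * Real.log (q * (1 + |t|))) →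
      ∀ s : ℂ, ‖s - (1 / 2 + c * I)‖ ≤ h / 32 → ‖f s‖ ≤ (q * (1 + |t|)) ^ ε := by
  set ρ := h / 16 with hρ
  have hρ0 : 0 < ρ := by positivity
  set δ := min (1 / 16) (min (ε / 24) (ε * ρ ^ 2 / (288 * (A + 1)))) with hδ
  have hδ0 : 0 < δ := by
    apply lt_min (by norm_num) (lt_min (by positivity) (by positivity))
  have hδ1 : δ ≤ 1 / 16 := min_le_left _ _
  have hδ2 : δ ≤ ε / 24 := (min_le_right _ _).trans (min_le_left _ _)
  have hδ3 : δ ≤ ε * ρ ^ 2 / (288 * (A + 1)) := (min_le_right _ _).trans (min_le_right _ _)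
  obtain ⟨κ, hκ, Λ₀, hLB⟩ := local_backlund (δ := δ) (h := h / 2) (A := A + 1) (ε := ε / 8) hδ0
    (by linarith) (by positivity) (by linarith) (by linarith) (by positivity)
  refine ⟨δ, hδ0, κ, hκ, max 10 (max (Real.exp Λ₀) (max (K * 3 ^ A) ((2 * K) ^ (8 / ε)))), ?_⟩
  intro q f φ hG t c hK₀ hct hzero s hs
  have hq := hG.hq
  set C := q * (1 + |t|) with hC
  have hC10 : 10 ≤ C := (le_max_left _ _).trans hK₀
  have hC1 : 1 ≤ C := by linarith
  have hC0 : 0 < C := by linarith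
  have hCΛ : Real.exp Λ₀ ≤ C := ((le_max_left _ _).trans (le_max_right _ _)).trans hK₀
  have hCK : K * 3 ^ A ≤ C :=
    ((le_max_left _ _).trans ((le_max_right _ _).trans (le_max_right _ _))).trans hK₀
  have hCK2 : (2 * K) ^ (8 / ε) ≤ C :=
    ((le_max_right _ _).trans ((le_max_right _ _).trans (le_max_right _ _))).trans hK₀
  have h2K : 2 * K ≤ C ^ (ε / 8) := by
    have h1 : ((2 * K) ^ (8 / ε)) ^ (ε / 8) ≤ C ^ (ε / 8) :=
      Real.rpow_le_rpow (by positivity) hCK2 (by positivity)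
    rw [← Real.rpow_mul (by positivity)] at h1
    have h2 : 8 / ε * (ε / 8) = 1 := by field_simp
    rwa [h2, Real.rpow_one] at h1
  set Λ := Real.log C with hΛ
  have hΛ₀ : Λ₀ ≤ Λ := by rw [hΛ, Real.le_log_iff_exp_le hC0]; exact hCΛ
  have hCexp : ∀ y : ℝ, Real.exp (y * Λ) = C ^ y := by
    intro y; rw [Real.rpow_def_of_pos hC0, mul_comm]
  -- imaginary parts are away from 0 when q = 1
  have him : ∀ y : ℝ, |y - c| ≤ 1 → 1 < q ∨ 1 ≤ |y| := by
    intro y hy
    by_cases h8 : 1 < q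
    · exact Or.inl h8
    · right
      have hqe : q = 1 := le_antisymm (not_lt.mp h8) hq
      rw [hC, hqe, one_mul] at hC10
      have h9 : |t| ≤ |y| + |t - y| := by
        have := abs_add_le y (t - y)
        rwa [add_sub_cancel] at this
      have h10 : |t - y| ≤ 2 := by
        rw [abs_le] at hy hct ⊢; constructor <;> linarith
      linarith
  have hcond : ∀ y : ℝ, |y - c| ≤ 1 → q * (1 + |y|) ≤ 3 * C := by
    intro y hy
    have h5 := cond_le (u := y) (u0 := t) hq
    have h10 : |y - t| ≤ 2 := by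
      rw [abs_le] at hy hct ⊢; constructor <;> linarith
    calc q * (1 + |y|) ≤ C * (1 + |y - t|) := h5
      _ ≤ C * (1 + 2) := by gcongr
      _ = 3 * C := by ring
  have hpoly : ∀ y : ℝ, |y - c| ≤ 1 → K * (q * (1 + |y|)) ^ A ≤ C ^ (A + 1) := by
    intro y hy
    have h5 : (q * (1 + |y|)) ^ A ≤ 3 ^ A * C ^ A := by
      rw [← Real.mul_rpow (by norm_num) hC0.le]
      exact Real.rpow_le_rpow (by positivity) (hcond y hy) hA
    calc K * (q * (1 + |y|)) ^ A ≤ K * (3 ^ A * C ^ A) := by gcongr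
      _ = (K * 3 ^ A) * C ^ A := by ring
      _ ≤ C * C ^ A := by gcongr
      _ = C ^ (A + 1) := by rw [Real.rpow_add hC0, Real.rpow_one]; ring
  have hboxc : ∀ z ∈ box δ (h / 2) c, |z.im - c| ≤ 1 := by
    intro z hz
    have := hz.2.2
    linarith
  have hR := hLB Λ hΛ₀ f c
    (by
      intro z hz
      refine (hG.diff z ?_).differentiableWithinAt
      rcases him z.im (hboxc z hz) with h8 | h8
      · exact Or.inr h8
      · left
        rintro rfl
        simp at h8
        linarith)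
    (by
      intro z hz
      rw [hCexp]
      exact (hG.bd z (by have := hz.1; linarith) hz.2.1.le (him _ (hboxc z hz))).trans
        (hpoly _ (hboxc z hz)))
    (fun z _ hz1 => hG.nz z hz1)
    (fun z _ hz1 => hG.near1 z hz1)
    (by
      intro Z hZ
      exact hzero Z fun z hz => ⟨(hZ z hz).1.le, (hZ z hz).2.2.le⟩)
  have hRight : ∀ s : ℂ, 1 / 2 + 3 * δ ≤ s.re → s.re ≤ 5 / 2 → |s.im - c| ≤ h / 8 →
      ‖f s‖ ≤ C ^ (ε / 8) := by
    intro s h1 h2 h3
    have := hR s h1 h2 (by linarith)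
    rwa [hCexp] at this
  have hLeft : ∀ s : ℂ, 1 / 4 ≤ s.re → s.re ≤ 1 / 2 - 3 * δ → |s.im - c| ≤ h / 8 →
      ‖f s‖ ≤ C ^ ((1 / 2 - s.re) + ε / 4) := by
    intro s h1 h2 h3
    set x := 1 / 2 - s.re with hxdef
    have hx0 : 0 ≤ x := by linarith
    have hx1 : x ≤ 1 / 4 := by linarith
    have es : s = 1 / 2 - x + s.im * I := by
      apply Complex.ext
      · simp [hxdef]
      · simp
    have h5 := hG.fe x s.im hx0 hx1
    rw [← es] at h5
    have h6 := hRight (1 / 2 + x + s.im * I) (by simp; linarith) (by simp; linarith) (by simpa using h3)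
    have h7 : (q * (1 + |s.im|)) ^ x ≤ 2 * C ^ x := by
      calc (q * (1 + |s.im|)) ^ x ≤ (3 * C) ^ x := by
            exact Real.rpow_le_rpow (by positivity) (hcond _ (by linarith)) hx0
        _ = 3 ^ x * C ^ x := Real.mul_rpow (by norm_num) hC0.le
        _ ≤ 2 * C ^ x := by
          gcongr
          calc (3:ℝ) ^ x ≤ 3 ^ (1 / 2 : ℝ) :=
                Real.rpow_le_rpow_of_exponent_le (by norm_num) (by linarith)
            _ = Real.sqrt 3 := by rw [Real.sqrt_eq_rpow]
            _ ≤ 2 := by rw [Real.sqrt_le_left (by norm_num)]; norm_num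
    calc ‖f s‖ ≤ K * (q * (1 + |s.im|)) ^ x * ‖f (1 / 2 + x + s.im * I)‖ := h5
      _ ≤ K * (2 * C ^ x) * C ^ (ε / 8) := by gcongr
      _ = (2 * K) * C ^ x * C ^ (ε / 8) := by ring
      _ ≤ C ^ (ε / 8) * C ^ x * C ^ (ε / 8) := by gcongr
      _ = C ^ (x + ε / 4) := by
        rw [← Real.rpow_add hC0, ← Real.rpow_add hC0]
        congr 1; ring
  have hsre : |s.re - 1 / 2| ≤ h / 32 := by
    have := Complex.abs_re_le_norm (s - (1 / 2 + c * I))
    simp at this
    norm_num at this ⊢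
    linarith
  have hsim : |s.im - c| ≤ h / 32 := by
    have := Complex.abs_im_le_norm (s - (1 / 2 + c * I))
    simp at this
    linarith
  have hsre' := hsre
  rw [abs_le] at hsre'
  by_cases hA1 : 1 / 2 + 3 * δ ≤ s.re
  · refine (hRight s hA1 (by linarith) (by linarith)).trans ?_
    exact Real.rpow_le_rpow_of_exponent_le hC1 (by linarith)
  push Not at hA1
  by_cases hB1 : s.re ≤ 1 / 2 - 3 * δ
  · refine (hLeft s (by linarith) hB1 (by linarith)).trans ?_
    exact Real.rpow_le_rpow_of_exponent_le hC1 (by linarith)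
  push Not at hB1
  have hx3 : 0 < 3 * δ := by positivity
  have hMexp : 0 ≤ 3 * δ + ε / 4 := by positivity
  have hM1 : 1 ≤ C ^ (3 * δ + ε / 4) := Real.one_le_rpow hC1 hMexp
  have hlogC : 0 ≤ Λ := Real.log_nonneg hC1
  have hll := local_lines (f := f) (x := 3 * δ) (ρ := ρ) (lam := (A + 1) * Λ / ρ ^ 2)
    (M := C ^ (3 * δ + ε / 4)) (s0 := s) hx3 hρ0 (by positivity)
    (by rw [abs_le]; constructor <;> linarith)
    (by
      apply DifferentiableOn.diffContOnCl
      intro z hz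
      have hclos : closure (crect (3 * δ) s.im ρ) =
          Icc (1 / 2 - 3 * δ) (1 / 2 + 3 * δ) ×ℂ Icc (s.im - ρ) (s.im + ρ) := by
        rw [crect, closure_reProdIm, closure_Ioo (by linarith), closure_Ioo (by linarith)]
      rw [hclos, mem_reProdIm] at hz
      refine (hG.diff z (Or.inl ?_)).differentiableWithinAt
      rintro rfl
      have := hz.1.2
      simp at this
      linarith)
    (by
      intro z hz1 hz2
      have hzc : |z.im - c| ≤ h / 8 := by
        have : |z.im - c| ≤ |z.im - s.im| + |s.im - c| := abs_sub_le _ _ _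
        linarith
      rcases abs_choice (z.re - 1 / 2) with h9 | h9
      · rw [h9] at hz1
        refine (hRight z (by linarith) (by linarith) hzc).trans ?_
        exact Real.rpow_le_rpow_of_exponent_le hC1 (by linarith)
      · rw [h9] at hz1
        refine (hLeft z (by linarith) (by linarith) hzc).trans ?_
        exact Real.rpow_le_rpow_of_exponent_le hC1 (by linarith))
    (by
      intro z hz1 hz2
      have hzc : |z.im - c| ≤ 1 := by
        have : |z.im - c| ≤ |z.im - s.im| + |s.im - c| := abs_sub_le _ _ _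
        linarith
      rw [abs_le] at hz1
      have e1 : (A + 1) * Λ / ρ ^ 2 * ρ ^ 2 = (A + 1) * Λ := by field_simp
      rw [e1, hCexp]
      calc ‖f z‖ ≤ K * (q * (1 + |z.im|)) ^ A := hG.bd z (by linarith) (by linarith) (him _ hzc)
        _ ≤ 1 * C ^ (A + 1) := by rw [one_mul]; exact hpoly _ hzc
        _ ≤ _ := by gcongr)
    (by positivity)
  refine hll.trans ?_
  have e2 : (A + 1) * Λ / ρ ^ 2 * (2 * (3 * δ)) ^ 2 = (36 * (A + 1) * δ ^ 2 / ρ ^ 2) * Λ := by ring
  rw [e2, hCexp, ← Real.rpow_add hC0]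
  apply Real.rpow_le_rpow_of_exponent_le hC1
  have e3 : 36 * (A + 1) * δ ^ 2 / ρ ^ 2 ≤ ε / 8 := by
    rw [div_le_iff₀ (by positivity)]
    rw [le_div_iff₀ (by positivity)] at hδ3
    exact aux_e3 hA hδ0 (by linarith) hδ3
  linarith

end Pool.Agent.H61.GLH
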