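import Pool.Agent.H61.GLH.Local2

/-! Abstract data of an `L`-function and the convexity bound. -/

set_option autoImplicit false

open Complex Set Filter Topology Metric

namespace Pool.Agent.H61.GLH

/-- Analytic data of a degree one `L`-function `f` of conductor `q` with uniform constants. -/
structure Good (K A q : ℝ) (f φ : ℂ → ℂ) : Prop where
  hq : 1 ≤ q
  diff : ∀ s : ℂ, s ≠ 1 ∨ 1 < q → DifferentiableAt ℂ f s
  φdiff : ∀ s : ℂ, 0 < s.re → DifferentiableAt ℂ φ s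
  φeq : ∀ s : ℂ, 0 < s.re → s ≠ 1 → φ s = (s - 1) * f s
  φbd : ∀ s : ℂ, 1 / 4 ≤ s.re → s.re ≤ 3 → ‖φ s‖ ≤ K * (q * (1 + |s.im|)) ^ A
  bd : ∀ s : ℂ, 1 / 4 ≤ s.re → s.re ≤ 3 → (1 < q ∨ 1 ≤ |s.im|) → ‖f s‖ ≤ K * (q * (1 + |s.im|)) ^ A
  half : ∀ s : ℂ, s.re = 1 / 2 → ‖f s‖ ≤ K * (q * (1 + |s.im|)) ^ A
  fe : ∀ x u : ℝ, 0 ≤ x → x ≤ 1 / 4 →
    ‖f (1 / 2 - x + u * I)‖ ≤ K * (q * (1 + |u|)) ^ x * ‖f (1 / 2 + x + u * I)‖
  far : ∀ s : ℂ, 3 / 2 ≤ s.re → ‖f s‖ ≤ K
  near1 : ∀ s : ℂ, 2 < s.re → ‖f s - 1‖ ≤ 2 / 3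
  nz : ∀ s : ℂ, 1 < s.re → f s ≠ 0

lemma cond_le {q u u0 : ℝ} (hq : 1 ≤ q) :
    q * (1 + |u|) ≤ q * (1 + |u0|) * (1 + |u - u0|) := by
  have h1 : |u| ≤ |u0| + |u - u0| := by
    have := abs_add_le u0 (u - u0)
    rwa [add_sub_cancel] at this
  have h2 : 0 ≤ |u0| * |u - u0| := by positivity
  have h3 : 1 + |u| ≤ (1 + |u0|) * (1 + |u - u0|) := by nlinarith
  calc q * (1 + |u|) ≤ q * ((1 + |u0|) * (1 + |u - u0|)) := by gcongr
    _ = _ := by ring

lemma gauss_le {a v : ℝ} (ha : 0 ≤ a) (hv : 0 ≤ v) :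
    (1 + v) ^ a * Real.exp (-(v ^ 2)) ≤ Real.exp (a ^ 2 / 4) := by
  have h1 : 1 + v ≤ Real.exp v := by
    have := Real.add_one_le_exp v; linarith
  have h2 : (1 + v) ^ a ≤ Real.exp (v * a) := by
    rw [Real.exp_mul]
    exact Real.rpow_le_rpow (by positivity) h1 ha
  calc (1 + v) ^ a * Real.exp (-(v ^ 2)) ≤ Real.exp (v * a) * Real.exp (-(v ^ 2)) := by gcongr
    _ = Real.exp (v * a - v ^ 2) := by rw [← Real.exp_add]; congr 1
    _ ≤ _ := by
      apply Real.exp_le_exp.mpr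
      nlinarith [sq_nonneg (v - a / 2)]

lemma weight_bound {q a u u0 : ℝ} (hq : 1 ≤ q) (ha : 0 ≤ a) :
    (q * (1 + |u|)) ^ a * Real.exp (-((u - u0) ^ 2)) ≤
      (q * (1 + |u0|)) ^ a * Real.exp (a ^ 2 / 4) := by
  have h1 := cond_le (u := u) (u0 := u0) hq
  have h2 : (q * (1 + |u|)) ^ a ≤ (q * (1 + |u0|)) ^ a * (1 + |u - u0|) ^ a := by
    rw [← Real.mul_rpow (by positivity) (by positivity)]
    exact Real.rpow_le_rpow (by positivity) h1 ha
  have h3 := gauss_le ha (abs_nonneg (u - u0))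
  rw [sq_abs] at h3
  calc (q * (1 + |u|)) ^ a * Real.exp (-((u - u0) ^ 2))
      ≤ ((q * (1 + |u0|)) ^ a * (1 + |u - u0|) ^ a) * Real.exp (-((u - u0) ^ 2)) := by gcongr
    _ = (q * (1 + |u0|)) ^ a * ((1 + |u - u0|) ^ a * Real.exp (-((u - u0) ^ 2))) := by ring
    _ ≤ _ := by gcongr

lemma strip_max {F : ℂ → ℂ} {a b C B : ℝ} (hab : a < b)
    (hF : DiffContOnCl ℂ F (re ⁻¹' Ioo a b)) (hB : ∀ z : ℂ, a < z.re → z.re < b → ‖F z‖ ≤ B)
    (ha : ∀ z : ℂ, z.re = a → ‖F z‖ ≤ C) (hb : ∀ z : ℂ, z.re = b → ‖F z‖ ≤ C) {z : ℂ}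
    (h1 : a ≤ z.re) (h2 : z.re ≤ b) : ‖F z‖ ≤ C := by
  refine PhragmenLindelof.vertical_strip hF ⟨0, ?_, 0, ?_⟩ ha hb h1 h2
  · have : 0 < b - a := by linarith
    positivity
  · refine Asymptotics.IsBigO.of_bound B ?_
    rw [Filter.eventually_inf_principal]
    refine Filter.Eventually.of_forall ?_
    intro z hz
    simpa using hB z hz.1 hz.2

lemma norm_gauss (s s0 : ℂ) : ‖Complex.exp ((s - s0) ^ 2)‖ =
    Real.exp ((s.re - s0.re) ^ 2) * Real.exp (-((s.im - s0.im) ^ 2)) := by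
  rw [Complex.norm_exp, ← Real.exp_add]
  congr 1
  simp [pow_two]
  ring

/-- Convexity to the right of the critical line, without loss in the exponent. -/
theorem conv_bound {K A q a B : ℝ} {f φ : ℂ → ℂ} (hG : Good K A q f φ) (hK : 1 ≤ K) (hA : 0 ≤ A)
    (ha : 0 ≤ a) (hB : 1 ≤ B)
    (hH : ∀ u : ℝ, ‖f (1 / 2 + u * I)‖ ≤ B * (q * (1 + |u|)) ^ a) {s : ℂ} (h1 : 1 / 2 ≤ s.re)
    (h2 : s.re ≤ 3 / 2) (h3 : 1 < q ∨ 1 ≤ |s.im|) :
    ‖f s‖ ≤ 4 * K * B * Real.exp (1 + a ^ 2 / 4) * (q * (1 + |s.im|)) ^ a := by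
  have hq := hG.hq
  have hline : ∀ z : ℂ, z.re = 1 / 2 → ‖f z‖ ≤ B * (q * (1 + |z.im|)) ^ a := by
    intro z hz
    have e : z = 1 / 2 + z.im * I := by
      apply Complex.ext
      · simp [hz]
      · simp
    have := hH z.im
    rwa [← e] at this
  set W := (q * (1 + |s.im|)) ^ a with hW
  have hC1 : 1 ≤ q * (1 + |s.im|) := by nlinarith [abs_nonneg s.im]
  have hW1 : 1 ≤ W := Real.one_le_rpow hC1 ha
  have hre : ∀ z : ℂ, 1 / 2 ≤ z.re → z.re ≤ 3 / 2 → Real.exp ((z.re - s.re) ^ 2) ≤ Real.exp 1 := by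
    intro z hz1 hz2
    apply Real.exp_le_exp.mpr
    nlinarith
  have hE : Real.exp 1 * Real.exp (a ^ 2 / 4) = Real.exp (1 + a ^ 2 / 4) := by rw [← Real.exp_add]
  have hE1 : Real.exp 1 ≤ Real.exp (1 + a ^ 2 / 4) := Real.exp_le_exp.mpr (by nlinarith [sq_nonneg a])
  -- bounds for a function ψ
  have main : ∀ ψ : ℂ → ℂ, Differentiable ℂ ψ →
      (∀ z : ℂ, 1 / 2 ≤ z.re → z.re ≤ 3 / 2 → ‖ψ z‖ ≤ 1 * (K * (q * (1 + |z.im|)) ^ A)) →
      (∀ z : ℂ, z.re = 1 / 2 → ‖ψ z‖ ≤ B * (q * (1 + |z.im|)) ^ a) →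
      (∀ z : ℂ, z.re = 3 / 2 → ‖ψ z‖ ≤ K) →
      ‖ψ s‖ ≤ K * B * Real.exp (1 + a ^ 2 / 4) * W := by
    intro ψ hψ hψb hψ1 hψ2
    set F : ℂ → ℂ := fun z => Complex.exp ((z - s) ^ 2) * ψ z with hF
    have hFd : Differentiable ℂ F := by
      rw [hF]; fun_prop
    have hFs : F s = ψ s := by rw [hF]; simp
    rw [← hFs]
    refine strip_max (a := 1 / 2) (b := 3 / 2)
      (B := Real.exp 1 * (K * ((q * (1 + |s.im|)) ^ A * Real.exp (A ^ 2 / 4)))) (by norm_num)
      hFd.diffContOnCl ?_ ?_ ?_ h1 h2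
    · intro z hz1 hz2
      rw [hF]
      simp only
      rw [norm_mul, norm_gauss]
      have e1 := weight_bound (u := z.im) (u0 := s.im) hq hA
      have e2 := hre z hz1.le hz2.le
      have e3 := hψb z hz1.le hz2.le
      calc Real.exp ((z.re - s.re) ^ 2) * Real.exp (-((z.im - s.im) ^ 2)) * ‖ψ z‖
          ≤ Real.exp 1 * Real.exp (-((z.im - s.im) ^ 2)) * (1 * (K * (q * (1 + |z.im|)) ^ A)) := by
            gcongr
        _ = Real.exp 1 * (K * ((q * (1 + |z.im|)) ^ A * Real.exp (-((z.im - s.im) ^ 2)))) := by ring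
        _ ≤ _ := by gcongr
    · intro z hz
      rw [hF]
      simp only
      rw [norm_mul, norm_gauss]
      have e1 := weight_bound (u := z.im) (u0 := s.im) hq ha
      have e2 := hre z (by linarith) (by linarith)
      have e3 := hψ1 z hz
      calc Real.exp ((z.re - s.re) ^ 2) * Real.exp (-((z.im - s.im) ^ 2)) * ‖ψ z‖
          ≤ Real.exp 1 * Real.exp (-((z.im - s.im) ^ 2)) * (B * (q * (1 + |z.im|)) ^ a) := by
            gcongr
        _ = Real.exp 1 * (B * ((q * (1 + |z.im|)) ^ a * Real.exp (-((z.im - s.im) ^ 2)))) := by ring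
        _ ≤ Real.exp 1 * (B * (W * Real.exp (a ^ 2 / 4))) := by gcongr
        _ = 1 * B * Real.exp (1 + a ^ 2 / 4) * W := by rw [← hE]; ring
        _ ≤ _ := by gcongr
    · intro z hz
      rw [hF]
      simp only
      rw [norm_mul, norm_gauss]
      have e2 := hre z (by linarith) (by linarith)
      have e3 := hψ2 z hz
      have e4 : Real.exp (-((z.im - s.im) ^ 2)) ≤ 1 := by
        rw [Real.exp_le_one_iff]; nlinarith [sq_nonneg (z.im - s.im)]
      calc Real.exp ((z.re - s.re) ^ 2) * Real.exp (-((z.im - s.im) ^ 2)) * ‖ψ z‖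
          ≤ Real.exp 1 * 1 * K := by gcongr
        _ = K * 1 * Real.exp 1 * 1 := by ring
        _ ≤ _ := by gcongr
  by_cases hq1 : 1 < q
  · have hfd : Differentiable ℂ f := fun z => hG.diff z (Or.inr hq1)
    have h4 := main f hfd (fun z hz1 hz2 => by
      rw [one_mul]; exact hG.bd z (by linarith) (by linarith) (Or.inl hq1)) hline
      (fun z hz => hG.far z hz.ge)
    refine h4.trans ?_
    have : 0 ≤ K * B * Real.exp (1 + a ^ 2 / 4) * W := by positivity
    linarith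
  · have him : 1 ≤ |s.im| := by
      rcases h3 with h3 | h3
      · exact absurd h3 hq1
      · exact h3
    -- use ψ = φ / (z + 2)
    have hne : ∀ z : ℂ, 1 / 4 ≤ z.re → z + 2 ≠ 0 := by
      intro z hz h0
      have := congrArg Complex.re h0
      simp at this
      linarith
    have hcmp : ∀ z : ℂ, 1 / 4 ≤ z.re → ‖z - 1‖ ≤ ‖z + 2‖ := by
      intro z hz
      rw [Complex.norm_def, Complex.norm_def]
      apply Real.sqrt_le_sqrt
      rw [Complex.normSq_apply, Complex.normSq_apply]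
      simp
      nlinarith
    -- a differentiable version is needed only on the strip; use strip_max directly
    set F : ℂ → ℂ := fun z => (Complex.exp ((z - s) ^ 2) * (z + 2)⁻¹) * φ z with hF
    have hFd : DiffContOnCl ℂ F (re ⁻¹' Ioo (1 / 2) (3 / 2)) := by
      apply DifferentiableOn.diffContOnCl
      intro z hz
      have hz' : z ∈ re ⁻¹' (Icc (1 / 2 : ℝ) (3 / 2)) := by
        have := closure_minimal (s := re ⁻¹' Ioo (1 / 2 : ℝ) (3 / 2))
          (t := re ⁻¹' Icc (1 / 2 : ℝ) (3 / 2))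
          (preimage_mono Ioo_subset_Icc_self) (isClosed_Icc.preimage Complex.continuous_re)
        exact this hz
      have hz1 : 1 / 2 ≤ z.re := hz'.1
      have e1 : DifferentiableAt ℂ (fun z : ℂ => Complex.exp ((z - s) ^ 2)) z := by fun_prop
      have e2 : DifferentiableAt ℂ (fun z : ℂ => (z + 2)⁻¹) z :=
        (differentiableAt_id.add_const 2).inv (hne z (by linarith))
      exact ((e1.mul e2).mul (hG.φdiff z (by linarith))).differentiableWithinAt
    have hnormF : ∀ z : ℂ, 1 / 4 ≤ z.re → ‖F z‖ = Real.exp ((z.re - s.re) ^ 2) *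
        Real.exp (-((z.im - s.im) ^ 2)) * (‖z + 2‖⁻¹ * ‖φ z‖) := by
      intro z hz
      rw [hF]
      simp only
      rw [norm_mul, norm_mul, norm_gauss, norm_inv]
      ring
    have hφf : ∀ z : ℂ, 1 / 4 ≤ z.re → z ≠ 1 → ‖z + 2‖⁻¹ * ‖φ z‖ ≤ ‖f z‖ := by
      intro z hz hz1
      rw [hG.φeq z (by linarith) hz1, norm_mul]
      have h5 : 0 < ‖z + 2‖ := norm_pos_iff.mpr (hne z hz)
      rw [inv_mul_le_iff₀ h5]
      gcongr
      exact hcmp z hz
    have hnorm2 : ∀ z : ℂ, 1 / 4 ≤ z.re → ‖z + 2‖⁻¹ ≤ 1 := by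
      intro z hz
      have : 1 ≤ ‖z + 2‖ := by
        have := Complex.abs_re_le_norm (z + 2)
        have h6 := le_abs_self (z + 2).re
        simp at this h6
        linarith
      exact inv_le_one_of_one_le₀ this
    have hmain : ‖F s‖ ≤ K * B * Real.exp (1 + a ^ 2 / 4) * W := by
      refine strip_max (a := 1 / 2) (b := 3 / 2)
        (B := Real.exp 1 * (K * ((q * (1 + |s.im|)) ^ A * Real.exp (A ^ 2 / 4)))) (by norm_num)
        hFd ?_ ?_ ?_ h1 h2
      · intro z hz1 hz2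
        rw [hnormF z (by linarith)]
        have e1 := weight_bound (u := z.im) (u0 := s.im) hq hA
        have e2 := hre z hz1.le hz2.le
        have e3 := hG.φbd z (by linarith) (by linarith)
        have e4 := hnorm2 z (by linarith)
        calc Real.exp ((z.re - s.re) ^ 2) * Real.exp (-((z.im - s.im) ^ 2)) * (‖z + 2‖⁻¹ * ‖φ z‖)
            ≤ Real.exp 1 * Real.exp (-((z.im - s.im) ^ 2)) *
              (1 * (K * (q * (1 + |z.im|)) ^ A)) := by
              gcongr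
          _ = Real.exp 1 * (K * ((q * (1 + |z.im|)) ^ A * Real.exp (-((z.im - s.im) ^ 2)))) := by
              ring
          _ ≤ _ := by gcongr
      · intro z hz
        rw [hnormF z (by linarith)]
        have e1 := weight_bound (u := z.im) (u0 := s.im) hq ha
        have e2 := hre z (by linarith) (by linarith)
        have e3 := hline z hz
        have hz1 : z ≠ 1 := by rintro rfl; norm_num at hz
        have e4 := hφf z (by linarith) hz1
        calc Real.exp ((z.re - s.re) ^ 2) * Real.exp (-((z.im - s.im) ^ 2)) * (‖z + 2‖⁻¹ * ‖φ z‖)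
            ≤ Real.exp 1 * Real.exp (-((z.im - s.im) ^ 2)) * (B * (q * (1 + |z.im|)) ^ a) := by
              apply mul_le_mul _ (e4.trans e3) (by positivity) (by positivity)
              gcongr
          _ = Real.exp 1 * (B * ((q * (1 + |z.im|)) ^ a * Real.exp (-((z.im - s.im) ^ 2)))) := by
              ring
          _ ≤ Real.exp 1 * (B * (W * Real.exp (a ^ 2 / 4))) := by gcongr
          _ = 1 * B * Real.exp (1 + a ^ 2 / 4) * W := by rw [← hE]; ring
          _ ≤ _ := by gcongr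
      · intro z hz
        rw [hnormF z (by linarith)]
        have e2 := hre z (by linarith) (by linarith)
        have hz1 : z ≠ 1 := by rintro rfl; norm_num at hz
        have e3 := hG.far z hz.ge
        have e5 := hφf z (by linarith) hz1
        have e4 : Real.exp (-((z.im - s.im) ^ 2)) ≤ 1 := by
          rw [Real.exp_le_one_iff]; nlinarith [sq_nonneg (z.im - s.im)]
        calc Real.exp ((z.re - s.re) ^ 2) * Real.exp (-((z.im - s.im) ^ 2)) * (‖z + 2‖⁻¹ * ‖φ z‖)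
            ≤ Real.exp 1 * 1 * K := by
              gcongr
              exact e5.trans e3
          _ = K * 1 * Real.exp 1 * 1 := by ring
          _ ≤ _ := by gcongr
    have hs1 : s ≠ 1 := by
      rintro rfl
      simp at him
      linarith
    have e6 : ‖F s‖ = ‖s + 2‖⁻¹ * (‖s - 1‖ * ‖f s‖) := by
      rw [hnormF s (by linarith), hG.φeq s (by linarith) hs1, norm_mul]
      simp
    have h5 : 0 < ‖s + 2‖ := norm_pos_iff.mpr (hne s (by linarith))
    have h6 : ‖s + 2‖ ≤ 4 * ‖s - 1‖ := by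
      have h7 : ‖s + 2‖ ≤ ‖s - 1‖ + 3 := by
        have := norm_add_le (s - 1) 3
        have e : s - 1 + 3 = s + 2 := by ring
        rw [e] at this
        simpa using this
      have h8 : 1 ≤ ‖s - 1‖ := by
        have := Complex.abs_im_le_norm (s - 1)
        simp at this
        linarith
      linarith
    rw [e6] at hmain
    have h9 : ‖f s‖ ≤ 4 * (‖s + 2‖⁻¹ * (‖s - 1‖ * ‖f s‖)) := by
      have : 1 ≤ 4 * (‖s + 2‖⁻¹ * ‖s - 1‖) := by
        rw [inv_mul_eq_div, ← mul_div_assoc, le_div_iff₀ h5]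
        linarith
      calc ‖f s‖ = 1 * ‖f s‖ := (one_mul _).symm
        _ ≤ (4 * (‖s + 2‖⁻¹ * ‖s - 1‖)) * ‖f s‖ := by gcongr
        _ = _ := by ring
    calc ‖f s‖ ≤ 4 * (‖s + 2‖⁻¹ * (‖s - 1‖ * ‖f s‖)) := h9
      _ ≤ 4 * (K * B * Real.exp (1 + a ^ 2 / 4) * W) := by gcongr
      _ = _ := by ring

end Pool.Agent.H61.GLH
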