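import Pool.Agent.H61.GLH.Local

/-! Asymptotic form of the local Backlund theorem. -/

set_option autoImplicit false

open Complex Set Filter Topology Metric

namespace Pool.Agent.H61.GLH

/-- Lower bound for `Phi` on the inner rectangle. -/
noncomputable def Phi0 (δ h : ℝ) : ℝ :=
  Real.sinh (Real.pi * δ / h) * Real.cos (Real.pi / 4) / Real.sinh (Real.pi * (2 - 2 * δ) / h)

lemma Phi0_pos {δ h : ℝ} (hδ : 0 < δ) (hδ' : δ ≤ 1 / 8) (hh : 0 < h) : 0 < Phi0 δ h := by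
  have h1 : 0 < Real.sinh (Real.pi * δ / h) := by rw [Real.sinh_pos_iff]; positivity
  have h2 : 0 < Real.cos (Real.pi / 4) := by rw [Real.cos_pi_div_four]; positivity
  have h3 : 0 < Real.sinh (Real.pi * (2 - 2 * δ) / h) := by
    rw [Real.sinh_pos_iff]
    have : 0 < 2 - 2 * δ := by linarith
    positivity
  rw [Phi0]; positivity

lemma Phi0_le_one {δ h : ℝ} (hδ : 0 < δ) (hδ' : δ ≤ 1 / 8) (hh : 0 < h) : Phi0 δ h ≤ 1 := by
  have h1 : 0 < Real.sinh (Real.pi * δ / h) := by rw [Real.sinh_pos_iff]; positivity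
  have h3 : 0 < Real.sinh (Real.pi * (2 - 2 * δ) / h) := by
    rw [Real.sinh_pos_iff]
    have : 0 < 2 - 2 * δ := by linarith
    positivity
  rw [Phi0, div_le_one h3]
  have h4 : Real.sinh (Real.pi * δ / h) ≤ Real.sinh (Real.pi * (2 - 2 * δ) / h) := by
    rw [Real.sinh_le_sinh]
    have : δ ≤ 2 - 2 * δ := by linarith
    gcongr
  have h5 := Real.cos_le_one (Real.pi / 4)
  nlinarith

lemma Phi0_le {δ h : ℝ} (hδ : 0 < δ) (hδ' : δ ≤ 1 / 8) (hh : 0 < h) {z : ℂ} (h1 : δ ≤ z.re)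
    (h2 : |z.im| ≤ h / 4) : Phi0 δ h ≤ Phi (2 - 2 * δ) h z := by
  have h3 : 0 < Real.sinh (Real.pi * (2 - 2 * δ) / h) := by
    rw [Real.sinh_pos_iff]
    have : 0 < 2 - 2 * δ := by linarith
    positivity
  have h4 : Real.sinh (Real.pi * δ / h) ≤ Real.sinh (Real.pi * z.re / h) := by
    rw [Real.sinh_le_sinh]
    gcongr
  have h5 : 0 < Real.sinh (Real.pi * δ / h) := by rw [Real.sinh_pos_iff]; positivity
  have h6 : Real.cos (Real.pi / 4) ≤ Real.cos (Real.pi * z.im / h) := by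
    rw [← Real.cos_abs (Real.pi * z.im / h)]
    apply Real.cos_le_cos_of_nonneg_of_le_pi (abs_nonneg _) (by linarith [Real.pi_pos])
    rw [abs_div, abs_mul, abs_of_pos Real.pi_pos, abs_of_pos hh, div_le_iff₀ hh]
    have := Real.pi_pos
    nlinarith
  have h7 : 0 < Real.cos (Real.pi / 4) := by rw [Real.cos_pi_div_four]; positivity
  have h8 : 0 ≤ Real.sinh (Real.pi * z.re / h) := h5.le.trans h4
  rw [Phi0, Phi]
  gcongr

theorem local_backlund {δ h A ε : ℝ} (hδ : 0 < δ) (hδ' : δ ≤ 1 / 8) (hh : 0 < h) (hh1 : h ≤ 1)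
    (hA : 0 ≤ A) (hε : 0 < ε) : ∃ κ > 0, ∃ Λ₀ : ℝ, ∀ Λ ≥ Λ₀, ∀ (f : ℂ → ℂ) (c : ℝ),
    DifferentiableOn ℂ f (box δ h c) → (∀ z ∈ box δ h c, ‖f z‖ ≤ Real.exp (A * Λ)) →
    (∀ z ∈ box δ h c, 1 < z.re → f z ≠ 0) →
    (∀ z ∈ box δ h c, 2 < z.re → ‖f z - 1‖ ≤ 2 / 3) →
    (∀ Z : Finset ℂ, (∀ z ∈ Z, z ∈ box δ h c) → ((∑ z ∈ Z, analyticOrderNatAt f z : ℕ) : ℝ) ≤ κ * Λ) →
    ∀ s : ℂ, 1 / 2 + 3 * δ ≤ s.re → s.re ≤ 5 / 2 → |s.im - c| ≤ h / 4 →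
      ‖f s‖ ≤ Real.exp (ε * Λ) := by
  set l := Real.log (2 / min δ (h / 2)) with hl
  have hr0 : 0 < min δ (h / 2) := lt_min hδ (by linarith)
  have hl0 : 0 ≤ l := by
    apply Real.log_nonneg
    rw [le_div_iff₀ hr0]
    have := min_le_left δ (h / 2)
    linarith
  set φ := Phi0 δ h with hφ
  have hφ0 : 0 < φ := Phi0_pos hδ hδ' hh
  have hφ1 : φ ≤ 1 := Phi0_le_one hδ hδ' hh
  set x := (ε / (8 * (A + 1))) ^ (1 / φ) with hx
  have hx0 : 0 < x := Real.rpow_pos_of_pos (by positivity) _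
  set κ := min (x / 6) (min (ε / 4) (1 / (2 * (l + 5)))) with hκ
  have hκ0 : 0 < κ := by
    apply lt_min (by positivity) (lt_min (by positivity) (by positivity))
  have hκ1 : κ ≤ x / 6 := min_le_left _ _
  have hκ2 : κ ≤ ε / 4 := (min_le_right _ _).trans (min_le_left _ _)
  have hκ3 : κ ≤ 1 / (2 * (l + 5)) := (min_le_right _ _).trans (min_le_right _ _)
  refine ⟨κ, hκ0, max 10 (5 / κ), ?_⟩
  intro Λ hΛ f c hf hfM h1 h2 hn s hs1 hs2 hs3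
  have hΛ1 : 10 ≤ Λ := (le_max_left _ _).trans hΛ
  have hΛ2 : 5 / κ ≤ Λ := (le_max_right _ _).trans hΛ
  have hΛ0 : 0 < Λ := by linarith
  set n := ⌊κ * Λ⌋₊ with hndef
  have hnle : (n : ℝ) ≤ κ * Λ := Nat.floor_le (by positivity)
  have hn' : ∀ Z : Finset ℂ, (∀ z ∈ Z, z ∈ box δ h c) → ∑ z ∈ Z, analyticOrderNatAt f z ≤ n := by
    intro Z hZ
    exact Nat.le_floor (hn Z hZ)
  have hM : 1 ≤ Real.exp (A * Λ) := Real.one_le_exp (by positivity)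
  have key := local_backlund_aux hδ hδ' hh hh1 hM hf hfM h1 h2 hn' (s := s) (by linarith) hs2
    (by linarith)
  refine key.trans (Real.exp_le_exp.mpr ?_)
  rw [Real.log_exp]
  set b : ℝ := 5 + 5 * n with hb
  have hb0 : 0 < b := by positivity
  set M' : ℝ := A * Λ + n * l + b with hM'
  have hnl : 0 ≤ (n : ℝ) * l := by positivity
  have hbM : b ≤ M' := by
    rw [hM']
    have : 0 ≤ A * Λ := by positivity
    linarith
  have hM'0 : 0 < M' := by linarith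
  have hz : Phi0 δ h ≤ Phi (2 - 2 * δ) h (s - ((1 / 2 + 2 * δ : ℝ) : ℂ) - c * I) := by
    apply Phi0_le hδ hδ' hh
    · simp; linarith
    · simpa using hs3
  have e1 : (b / M') ^ (Phi (2 - 2 * δ) h (s - ((1 / 2 + 2 * δ : ℝ) : ℂ) - c * I)) ≤ (b / M') ^ φ := by
    apply Real.rpow_le_rpow_of_exponent_ge (by positivity) _ hz
    rwa [div_le_one hM'0]
  have hbb : b ≤ 6 * κ * Λ := by
    rw [div_le_iff₀ hκ0] at hΛ2
    rw [hb]; linarith
  have hκl : κ * (2 * (l + 5)) ≤ 1 := by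
    rwa [le_div_iff₀ (by positivity)] at hκ3
  have hMM : M' ≤ (A + 1) * Λ := by
    rw [hM', hb]
    have e2 : (n : ℝ) * l ≤ κ * Λ * l := by gcongr
    nlinarith
  have e3 : M' * (b / M') ^ φ ≤ (A + 1) * Λ * (6 * κ) ^ φ := by
    have e4 : M' * (b / M') ^ φ = M' ^ (1 - φ) * b ^ φ := by
      rw [Real.div_rpow hb0.le hM'0.le, Real.rpow_sub hM'0, Real.rpow_one]
      field_simp
    rw [e4]
    have e5 : M' ^ (1 - φ) ≤ ((A + 1) * Λ) ^ (1 - φ) :=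
      Real.rpow_le_rpow hM'0.le hMM (by linarith)
    have e6 : b ^ φ ≤ (6 * κ * Λ) ^ φ := Real.rpow_le_rpow hb0.le hbb hφ0.le
    have e7 : ((A + 1) * Λ) ^ (1 - φ) * (6 * κ * Λ) ^ φ = ((A + 1) ^ (1 - φ)) * Λ * (6 * κ) ^ φ := by
      rw [Real.mul_rpow (by positivity) hΛ0.le, Real.mul_rpow (by positivity) hΛ0.le,
        Real.rpow_sub hΛ0, Real.rpow_one]
      have : Λ ^ φ ≠ 0 := (Real.rpow_pos_of_pos hΛ0 _).ne'
      field_simp
    have e8 : (A + 1) ^ (1 - φ) ≤ A + 1 := by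
      calc (A + 1) ^ (1 - φ) ≤ (A + 1) ^ (1 : ℝ) :=
            Real.rpow_le_rpow_of_exponent_le (by linarith) (by linarith)
        _ = A + 1 := Real.rpow_one _
    calc M' ^ (1 - φ) * b ^ φ ≤ ((A + 1) * Λ) ^ (1 - φ) * (6 * κ * Λ) ^ φ := by
          gcongr
      _ = ((A + 1) ^ (1 - φ)) * Λ * (6 * κ) ^ φ := e7
      _ ≤ _ := by gcongr
  have e9 : (6 * κ) ^ φ ≤ ε / (8 * (A + 1)) := by
    calc (6 * κ) ^ φ ≤ x ^ φ := Real.rpow_le_rpow (by positivity) (by linarith) hφ0.le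
      _ = ε / (8 * (A + 1)) := by
        rw [hx, ← Real.rpow_mul (by positivity), one_div_mul_cancel hφ0.ne', Real.rpow_one]
  have e10 : (A + 1) * Λ * (6 * κ) ^ φ ≤ ε * Λ / 8 := by
    calc (A + 1) * Λ * (6 * κ) ^ φ ≤ (A + 1) * Λ * (ε / (8 * (A + 1))) := by gcongr
      _ = ε * Λ / 8 := by field_simp
  have e11 : M' * (b / M') ^ (Phi (2 - 2 * δ) h (s - ((1 / 2 + 2 * δ : ℝ) : ℂ) - c * I)) ≤
      ε * Λ / 8 := (mul_le_mul_of_nonneg_left e1 hM'0.le).trans (e3.trans e10)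
  have e12 : 2 * (n : ℝ) ≤ ε * Λ / 2 := by nlinarith
  calc 4 * M' * (b / M') ^ (Phi (2 - 2 * δ) h (s - ((1 / 2 + 2 * δ : ℝ) : ℂ) - c * I)) + 2 * n
      ≤ 4 * (ε * Λ / 8) + ε * Λ / 2 := by
        have : 4 * M' * (b / M') ^ (Phi (2 - 2 * δ) h (s - ((1 / 2 + 2 * δ : ℝ) : ℂ) - c * I)) =
          4 * (M' * (b / M') ^ (Phi (2 - 2 * δ) h (s - ((1 / 2 + 2 * δ : ℝ) : ℂ) - c * I))) := by ring
        rw [this]
        gcongr
    _ = ε * Λ := by ring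

end Pool.Agent.H61.GLH
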