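import Pool.Agent.H61.GLH.Abs

/-! The improvement step by Hadamard's three circles theorem, and its limit. -/

set_option autoImplicit false

open Complex Set Filter Topology Metric

namespace Pool.Agent.H61.GLH

/-- A uniform bound with exponent `a` on the critical line. -/
def HB {ι : Type*} (q : ι → ℝ) (f : ι → ℂ → ℂ) (a : ℝ) : Prop :=
  ∃ B : ℝ, 1 ≤ B ∧ ∀ i, ∀ t : ℝ, ‖f i (1 / 2 + t * I)‖ ≤ B * (q i * (1 + |t|)) ^ a

section
variable {ι : Type*} {q : ι → ℝ} {f φ : ι → ℂ → ℂ}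

lemma HB.mono {K A : ℝ} (hG : ∀ i, Good K A (q i) (f i) (φ i)) {a b : ℝ} (hab : a ≤ b)
    (h : HB q f a) : HB q f b := by
  obtain ⟨B, hB, h⟩ := h
  refine ⟨B, hB, fun i t => (h i t).trans ?_⟩
  have h1 : 1 ≤ q i * (1 + |t|) := by
    have := (hG i).hq
    nlinarith [abs_nonneg t]
  gcongr

lemma pow_combine {C B u v θ : ℝ} (hC : 0 < C) (hB : 0 ≤ B) :
    (C ^ u) ^ (1 - θ) * (B * C ^ v) ^ θ = B ^ θ * C ^ ((1 - θ) * u + θ * v) := by
  rw [Real.mul_rpow hB (by positivity), ← Real.rpow_mul hC.le, ← Real.rpow_mul hC.le,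
    Real.rpow_add hC, mul_comm u, mul_comm v]
  ring

lemma exp_mono {θ θ' X Y : ℝ} (h : θ' ≤ θ) (hXY : X ≤ Y) :
    (1 - θ') * X + θ' * Y ≤ (1 - θ) * X + θ * Y := by
  nlinarith [mul_nonneg (sub_nonneg.mpr h) (sub_nonneg.mpr hXY)]

/-- Bound near the critical line, on both sides. -/
lemma near_bound {K A qq a B : ℝ} {g ψ : ℂ → ℂ} (hG : Good K A qq g ψ) (hK : 1 ≤ K) (hA : 0 ≤ A)
    (ha : 0 ≤ a) (hB : 1 ≤ B)
    (hH : ∀ u : ℝ, ‖g (1 / 2 + u * I)‖ ≤ B * (qq * (1 + |u|)) ^ a) {C : ℝ} (hC : 1 ≤ C) {s : ℂ}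
    (h1 : 1 / 4 ≤ s.re) (h2 : s.re ≤ 3 / 4) (h3 : 1 < qq ∨ 1 ≤ |s.im|)
    (h4 : qq * (1 + |s.im|) ≤ 2 * C) :
    ‖g s‖ * C ^ ((s.re - 1 / 2) / 2) ≤
      4 * K ^ 2 * B * Real.exp (1 + a ^ 2 / 4) * 2 ^ (a + 1) * C ^ (a + |s.re - 1 / 2| / 2) := by
  have hq := hG.hq
  have hC0 : 0 < C := by linarith
  have hq0 : 0 < qq * (1 + |s.im|) := by
    have := abs_nonneg s.im
    nlinarith
  set E := Real.exp (1 + a ^ 2 / 4) with hE
  have hE1 : 0 < E := Real.exp_pos _
  have hpa : (qq * (1 + |s.im|)) ^ a ≤ 2 ^ a * C ^ a := by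
    rw [← Real.mul_rpow (by norm_num) hC0.le]
    exact Real.rpow_le_rpow hq0.le h4 ha
  have h2a : (2:ℝ) ^ a ≤ 2 ^ (a + 1) :=
    Real.rpow_le_rpow_of_exponent_le (by norm_num) (by linarith)
  by_cases hx : 1 / 2 ≤ s.re
  · have h5 := conv_bound hG hK hA ha hB hH (s := s) hx (by linarith) h3
    have h6 : |s.re - 1 / 2| = s.re - 1 / 2 := abs_of_nonneg (by linarith)
    rw [h6, Real.rpow_add hC0 a]
    have hp : 0 < C ^ ((s.re - 1 / 2) / 2) := Real.rpow_pos_of_pos hC0 _
    have hK2 : K ≤ K ^ 2 := by nlinarith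
    calc ‖g s‖ * C ^ ((s.re - 1 / 2) / 2)
        ≤ (4 * K * B * E * (qq * (1 + |s.im|)) ^ a) * C ^ ((s.re - 1 / 2) / 2) := by gcongr
      _ ≤ (4 * K ^ 2 * B * E * (2 ^ (a + 1) * C ^ a)) * C ^ ((s.re - 1 / 2) / 2) := by
          gcongr
          exact hpa.trans (by gcongr)
      _ = _ := by ring
  · push Not at hx
    set x := 1 / 2 - s.re with hxdef
    have hx0 : 0 ≤ x := by linarith
    have hx1 : x ≤ 1 / 4 := by linarith
    have es : s = 1 / 2 - x + s.im * I := by
      apply Complex.ext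
      · simp [hxdef]
      · simp
    have h5 := hG.fe x s.im hx0 hx1
    rw [← es] at h5
    set s' : ℂ := 1 / 2 + x + s.im * I with hs'
    have hs're : s'.re = 1 / 2 + x := by simp [hs']
    have hs'im : s'.im = s.im := by simp [hs']
    have h6 := conv_bound hG hK hA ha hB hH (s := s') (by rw [hs're]; linarith)
      (by rw [hs're]; linarith) (by rw [hs'im]; exact h3)
    rw [hs'im] at h6
    have h7 : |s.re - 1 / 2| = x := by
      rw [abs_sub_comm, abs_of_nonneg (by linarith)]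
    have h8 : (s.re - 1 / 2) / 2 = -(x / 2) := by rw [hxdef]; ring
    rw [h7, h8]
    have hpx : (qq * (1 + |s.im|)) ^ x ≤ 2 * C ^ x := by
      calc (qq * (1 + |s.im|)) ^ x ≤ (2 * C) ^ x := Real.rpow_le_rpow hq0.le h4 hx0
        _ = 2 ^ x * C ^ x := Real.mul_rpow (by norm_num) hC0.le
        _ ≤ 2 ^ (1:ℝ) * C ^ x := by
          gcongr
          · norm_num
          · linarith
        _ = 2 * C ^ x := by rw [Real.rpow_one]
    have e1 : C ^ x * C ^ a * C ^ (-(x / 2)) = C ^ (a + x / 2) := by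
      rw [← Real.rpow_add hC0, ← Real.rpow_add hC0]
      congr 1; ring
    have e2 : (2:ℝ) * 2 ^ a = 2 ^ (a + 1) := by
      rw [Real.rpow_add (by norm_num), Real.rpow_one]; ring
    calc ‖g s‖ * C ^ (-(x / 2))
        ≤ (K * (qq * (1 + |s.im|)) ^ x * ‖g s'‖) * C ^ (-(x / 2)) := by gcongr
      _ ≤ (K * (2 * C ^ x) * (4 * K * B * E * (2 ^ a * C ^ a))) * C ^ (-(x / 2)) := by
          have h9 : ‖g s'‖ ≤ 4 * K * B * E * (2 ^ a * C ^ a) := h6.trans (by gcongr)
          gcongr
      _ = 4 * K ^ 2 * B * E * (2 * 2 ^ a) * (C ^ x * C ^ a * C ^ (-(x / 2))) := by ring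
      _ = _ := by rw [e1, e2]

/-- The improvement step. -/
theorem three_step {K A : ℝ} (hG : ∀ i, Good K A (q i) (f i) (φ i)) (hK : 1 ≤ K) (hA : 0 ≤ A)
    {η r ε₁ a K₀ : ℝ} (hr : 0 < r) (hrη : r < η) (hη : η ≤ 1 / 16) (hε₁ : 0 ≤ ε₁) (haε : ε₁ ≤ a)
    (hwin : ∀ i, ∀ t : ℝ, K₀ ≤ q i * (1 + |t|) → ∃ c : ℝ, t ≤ c ∧ c ≤ t + η ∧
      ∀ s : ℂ, ‖s - (1 / 2 + c * I)‖ ≤ r → ‖f i s‖ ≤ (q i * (1 + |t|)) ^ ε₁)
    (h : HB q f a) :
    HB q f ((1 - Real.log (η / r) / Real.log (4 * η / r)) * (ε₁ + r / 2) +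
      Real.log (η / r) / Real.log (4 * η / r) * (a + 2 * η)) := by
  obtain ⟨B, hB, h⟩ := h
  have hη0 : 0 < η := hr.trans hrη
  have ha : 0 ≤ a := hε₁.trans haε
  set θ := Real.log (η / r) / Real.log (4 * η / r) with hθ
  have hl1 : 0 < Real.log (η / r) := Real.log_pos (by rw [lt_div_iff₀ hr]; linarith)
  have hl2 : Real.log (η / r) < Real.log (4 * η / r) := by
    apply Real.log_lt_log (by positivity)
    rw [div_lt_div_iff_of_pos_right hr]; linarith
  have hl3 : 0 < Real.log (4 * η / r) := hl1.trans hl2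
  have hθ0 : 0 ≤ θ := by positivity
  have hθ1 : θ ≤ 1 := by rw [hθ, div_le_one hl3]; exact hl2.le
  set a' := (1 - θ) * (ε₁ + r / 2) + θ * (a + 2 * η) with ha'
  have hle : ε₁ + r / 2 ≤ a + 2 * η := by linarith
  have ha'1 : ε₁ ≤ a' := by rw [ha']; nlinarith
  have ha'0 : 0 ≤ a' := hε₁.trans ha'1
  set E := Real.exp (1 + a ^ 2 / 4) with hE
  have hE1 : 1 ≤ E := Real.one_le_exp (by positivity)
  set B2 := 4 * K ^ 2 * B * E * 2 ^ (a + 1) with hB2
  have h2a : (1:ℝ) ≤ 2 ^ (a + 1) := Real.one_le_rpow (by norm_num) (by linarith)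
  have hB21 : 1 ≤ B2 := by
    have hK2 : 1 ≤ K ^ 2 := by nlinarith
    have e1 : 1 ≤ 4 * K ^ 2 := by nlinarith
    have e2 : 1 ≤ 4 * K ^ 2 * B := one_le_mul_of_one_le_of_one_le e1 hB
    have e3 : 1 ≤ 4 * K ^ 2 * B * E := one_le_mul_of_one_le_of_one_le e2 hE1
    exact one_le_mul_of_one_le_of_one_le e3 h2a
  set K1 := max K₀ 10 with hK1
  set B3 := K * K1 ^ A with hB3
  have hK11 : 1 ≤ K1 := le_trans (by norm_num) (le_max_right _ _)
  have hB31 : 1 ≤ B3 := one_le_mul_of_one_le_of_one_le hK (Real.one_le_rpow hK11 hA)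
  refine ⟨B2 + B3, by linarith, ?_⟩
  intro i t
  have hGi := hG i
  have hqi := hGi.hq
  set C := q i * (1 + |t|) with hC
  have hC1 : 1 ≤ C := by
    have := abs_nonneg t
    nlinarith
  have hC0 : 0 < C := by linarith
  have hCa' : 1 ≤ C ^ a' := Real.one_le_rpow hC1 ha'0
  by_cases hsmall : C < K1
  · have h1 := hGi.half (1 / 2 + t * I) (by simp)
    have e1 : ((1 / 2 + t * I : ℂ)).im = t := by simp
    rw [e1] at h1
    calc ‖f i (1 / 2 + t * I)‖ ≤ K * C ^ A := h1
      _ ≤ B3 * 1 := by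
        rw [mul_one, hB3]
        gcongr
      _ ≤ (B2 + B3) * C ^ a' := by
        gcongr
        linarith
  · push Not at hsmall
    have hCK : K₀ ≤ C := (le_max_left _ _).trans hsmall
    have hC10 : 10 ≤ C := (le_max_right _ _).trans hsmall
    obtain ⟨c, hc1, hc2, hdisc⟩ := hwin i t hCK
    set z0 : ℂ := ((t - c : ℝ) : ℂ) * I with hz0
    have hz0n : ‖z0‖ = c - t := by
      rw [hz0, norm_mul, Complex.norm_I, mul_one, Complex.norm_real, Real.norm_eq_abs,
        abs_sub_comm, abs_of_nonneg (by linarith)]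
    have est : (1 / 2 + c * I : ℂ) + z0 = 1 / 2 + t * I := by
      rw [hz0]; push_cast; ring
    have hgoal1 : C ^ ε₁ ≤ C ^ a' := Real.rpow_le_rpow_of_exponent_le hC1 ha'1
    by_cases hzr : ‖z0‖ ≤ r
    · have h1 := hdisc (1 / 2 + t * I) (by rw [← est]; simpa using hzr)
      calc ‖f i (1 / 2 + t * I)‖ ≤ C ^ ε₁ := h1
        _ ≤ 1 * C ^ a' := by rw [one_mul]; exact hgoal1
        _ ≤ (B2 + B3) * C ^ a' := by gcongr; linarith
    · push Not at hzr
      set R := 4 * η with hR
      have hrR : r < R := by linarith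
      have hR0 : 0 < R := by linarith
      have hR1 : R ≤ 1 / 4 := by linarith
      set G : ℂ → ℂ := fun z => Complex.exp ((Real.log C / 2 : ℝ) * z) *
        f i ((1 / 2 + c * I) + z) with hGdef
      have hnG : ∀ z : ℂ, ‖G z‖ = ‖f i ((1 / 2 + c * I) + z)‖ * C ^ (z.re / 2) := by
        intro z
        rw [hGdef]
        simp only
        rw [norm_mul, Complex.norm_exp, mul_comm, Real.rpow_def_of_pos hC0]
        congr 2
        rw [Complex.re_ofReal_mul]; ring
      have hre : ∀ z : ℂ, ‖z‖ ≤ R → |z.re| ≤ 1 / 4 ∧ |z.im| ≤ 1 / 4 := by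
        intro z hz
        exact ⟨(Complex.abs_re_le_norm z).trans (hz.trans hR1),
          (Complex.abs_im_le_norm z).trans (hz.trans hR1)⟩
      have hsre : ∀ z : ℂ, ((1 / 2 + c * I : ℂ) + z).re = 1 / 2 + z.re := by intro z; simp
      have hsim : ∀ z : ℂ, ((1 / 2 + c * I : ℂ) + z).im = c + z.im := by intro z; simp
      have hGd : DiffContOnCl ℂ G (ball 0 R) := by
        apply DifferentiableOn.diffContOnCl
        rw [closure_ball _ hR0.ne']
        intro z hz
        have hz' : ‖z‖ ≤ R := by simpa using hz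
        have hne : (1 / 2 + c * I : ℂ) + z ≠ 1 := by
          intro h0
          have := congrArg Complex.re h0
          rw [hsre] at this
          have h5 := (hre z hz').1
          rw [abs_le] at h5
          simp at this
          linarith
        have h6 : DifferentiableAt ℂ (fun z => f i ((1 / 2 + c * I) + z)) z := by
          have := hGi.diff _ (Or.inl hne)
          exact this.comp z (differentiableAt_id.const_add _)
        have h7 : DifferentiableAt ℂ (fun z : ℂ => Complex.exp ((Real.log C / 2 : ℝ) * z)) z := by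
          fun_prop
        exact (h7.mul h6).differentiableWithinAt
      have hbR : ∀ z : ℂ, ‖z‖ = R → ‖G z‖ ≤ B2 * C ^ (a + R / 2) := by
        intro z hz
        obtain ⟨hz1, hz2⟩ := hre z hz.le
        rw [abs_le] at hz1 hz2
        rw [hnG]
        set s := (1 / 2 + c * I : ℂ) + z with hs
        have hsr : s.re = 1 / 2 + z.re := hsre z
        have hsi : s.im = c + z.im := hsim z
        have h3 : 1 < q i ∨ 1 ≤ |s.im| := by
          by_cases h8 : 1 < q i
          · exact Or.inl h8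
          · right
            have hqe : q i = 1 := le_antisymm (not_lt.mp h8) hqi
            rw [hC, hqe, one_mul] at hC10
            have h9 : |t| ≤ |s.im| + |t - s.im| := by
              have := abs_add_le s.im (t - s.im)
              rwa [add_sub_cancel] at this
            have h10 : |t - s.im| ≤ 1 := by
              rw [hsi, abs_le]; constructor <;> linarith
            linarith
        have h4 : q i * (1 + |s.im|) ≤ 2 * C := by
          have h5 := cond_le (u := s.im) (u0 := t) hqi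
          have h10 : |s.im - t| ≤ 1 := by
            rw [hsi, abs_le]; constructor <;> linarith
          calc q i * (1 + |s.im|) ≤ C * (1 + |s.im - t|) := h5
            _ ≤ C * (1 + 1) := by gcongr
            _ = 2 * C := by ring
        have h5 := near_bound hGi hK hA ha hB (h i) hC1 (s := s) (by rw [hsr]; linarith)
          (by rw [hsr]; linarith) h3 h4
        have e1 : s.re - 1 / 2 = z.re := by rw [hsr]; ring
        rw [e1] at h5
        refine h5.trans ?_
        have h6 : |z.re| ≤ R := by rw [← hz]; exact Complex.abs_re_le_norm z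
        have h7 : C ^ (a + |z.re| / 2) ≤ C ^ (a + R / 2) :=
          Real.rpow_le_rpow_of_exponent_le hC1 (by linarith)
        gcongr
      have hbr : ∀ z : ℂ, ‖z‖ = r → ‖G z‖ ≤ C ^ (ε₁ + r / 2) := by
        intro z hz
        rw [hnG, Real.rpow_add hC0]
        have h5 := hdisc ((1 / 2 + c * I) + z) (by
          rw [add_sub_cancel_left]; exact hz.le)
        have h6 : C ^ (z.re / 2) ≤ C ^ (r / 2) := by
          apply Real.rpow_le_rpow_of_exponent_le hC1
          have := (le_abs_self z.re).trans (Complex.abs_re_le_norm z)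
          linarith
        gcongr
      have h3c := three_circles hr hrR hGd hbr hbR (z := z0) hzr.le (by rw [hz0n]; linarith)
      have hnz0 : ‖G z0‖ = ‖f i (1 / 2 + t * I)‖ := by
        rw [hnG, est]
        have : z0.re = 0 := by simp [hz0]
        rw [this]; simp
      rw [hnz0] at h3c
      set θ' := (Real.log ‖z0‖ - Real.log r) / (Real.log R - Real.log r) with hθ'
      have hlR : Real.log R - Real.log r = Real.log (4 * η / r) := by
        rw [Real.log_div (by positivity) hr.ne']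
      have hlη : Real.log (η / r) = Real.log η - Real.log r := Real.log_div hη0.ne' hr.ne'
      have hz0pos : 0 < ‖z0‖ := hr.trans hzr
      have hθ'0 : 0 ≤ θ' := by
        rw [hθ', hlR]
        apply div_nonneg _ hl3.le
        have := Real.log_le_log hr hzr.le
        linarith
      have hθ'θ : θ' ≤ θ := by
        rw [hθ', hlR, hθ, hlη]
        apply div_le_div_of_nonneg_right _ hl3.le
        have : Real.log ‖z0‖ ≤ Real.log η := Real.log_le_log hz0pos (by rw [hz0n]; linarith)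
        linarith
      have hθ'1 : θ' ≤ 1 := hθ'θ.trans hθ1
      have hR2 : R / 2 = 2 * η := by rw [hR]; ring
      calc ‖f i (1 / 2 + t * I)‖
          ≤ (C ^ (ε₁ + r / 2)) ^ (1 - θ') * (B2 * C ^ (a + R / 2)) ^ θ' := h3c
        _ = B2 ^ θ' * C ^ ((1 - θ') * (ε₁ + r / 2) + θ' * (a + 2 * η)) := by
          rw [pow_combine hC0 (by linarith), hR2]
        _ ≤ B2 * C ^ a' := by
          have e1 : B2 ^ θ' ≤ B2 := by
            calc B2 ^ θ' ≤ B2 ^ (1:ℝ) := Real.rpow_le_rpow_of_exponent_le hB21 hθ'1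
              _ = B2 := Real.rpow_one _
          have e2 : C ^ ((1 - θ') * (ε₁ + r / 2) + θ' * (a + 2 * η)) ≤ C ^ a' := by
            apply Real.rpow_le_rpow_of_exponent_le hC1
            exact exp_mono hθ'θ hle
          exact mul_le_mul e1 e2 (by positivity) (by linarith)
        _ ≤ (B2 + B3) * C ^ a' := by gcongr; linarith

/-- Limit of the improvement step: the infimum of the admissible exponents is small. -/
theorem exponent_le {K A : ℝ} (hG : ∀ i, Good K A (q i) (f i) (φ i)) (hK : 1 ≤ K) (hA : 0 ≤ A)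
    {η r ε₁ K₀ : ℝ} (hr : 0 < r) (hrη : r < η) (hη : η ≤ 1 / 16) (hε₁ : 0 ≤ ε₁)
    (hwin : ∀ i, ∀ t : ℝ, K₀ ≤ q i * (1 + |t|) → ∃ c : ℝ, t ≤ c ∧ c ≤ t + η ∧
      ∀ s : ℂ, ‖s - (1 / 2 + c * I)‖ ≤ r → ‖f i s‖ ≤ (q i * (1 + |t|)) ^ ε₁)
    {b : ℝ} (hb : ε₁ + r / 2 + 2 * η * Real.log (η / r) < b) : HB q f b := by
  have hη0 : 0 < η := hr.trans hrη
  set S := {a : ℝ | ε₁ ≤ a ∧ HB q f a} with hS
  have hne : (max A ε₁) ∈ S := by
    refine ⟨le_max_right _ _, ?_⟩
    apply HB.mono hG (le_max_left A ε₁)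
    refine ⟨K, hK, fun i t => ?_⟩
    have h1 := (hG i).half (1 / 2 + t * I) (by simp)
    have e1 : ((1 / 2 + t * I : ℂ)).im = t := by simp
    rwa [e1] at h1
  have hbdd : BddBelow S := ⟨ε₁, fun a ha => ha.1⟩
  set m := sInf S with hm
  have hmε : ε₁ ≤ m := le_csInf ⟨_, hne⟩ fun a ha => ha.1
  set θ := Real.log (η / r) / Real.log (4 * η / r) with hθ
  have hl1 : 0 < Real.log (η / r) := Real.log_pos (by rw [lt_div_iff₀ hr]; linarith)
  have hl4 : Real.log (4 * η / r) = Real.log 4 + Real.log (η / r) := by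
    rw [mul_div_assoc, Real.log_mul (by norm_num) (by positivity)]
  have hlog4 : 1 < Real.log 4 := by
    have := Real.log_two_gt_d9
    have e : Real.log 4 = 2 * Real.log 2 := by
      rw [show (4:ℝ) = 2 ^ 2 by norm_num, Real.log_pow]; norm_num
    linarith
  have hl3 : 0 < Real.log (4 * η / r) := by rw [hl4]; linarith
  have hθ0 : 0 ≤ θ := by positivity
  have hθ1 : θ < 1 := by rw [hθ, div_lt_one hl3, hl4]; linarith
  have hstep : ∀ a ∈ S, m ≤ (1 - θ) * (ε₁ + r / 2) + θ * (a + 2 * η) := by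
    intro a ha
    apply csInf_le hbdd
    refine ⟨?_, three_step hG hK hA hr hrη hη hε₁ ha.1 hwin ha.2⟩
    have := ha.1
    nlinarith
  have hlim : m ≤ (1 - θ) * (ε₁ + r / 2) + θ * (m + 2 * η) := by
    by_contra hlt
    push Not at hlt
    have hθpos : 0 < θ := by positivity
    -- choose a close to m
    obtain ⟨a, haS, ham⟩ := exists_lt_of_csInf_lt (s := S) ⟨_, hne⟩
      (show sInf S < m + (m - ((1 - θ) * (ε₁ + r / 2) + θ * (m + 2 * η))) by
        rw [← hm]; linarith)
    have h1 := hstep a haS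
    have h2 : θ * (a - m) ≤ a - m := by
      have : 0 ≤ a - m := by
        have := csInf_le hbdd haS
        linarith
      nlinarith
    nlinarith
  have hfix : m ≤ ε₁ + r / 2 + 2 * η * Real.log (η / r) := by
    have e1 : (1 - θ) * m ≤ (1 - θ) * (ε₁ + r / 2) + θ * (2 * η) := by nlinarith
    have e2 : θ ≤ (1 - θ) * Real.log (η / r) := by
      have e3 : 1 - θ = Real.log 4 / Real.log (4 * η / r) := by
        rw [hθ, hl4]; field_simp; ring
      rw [e3, hθ, div_mul_eq_mul_div]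
      apply div_le_div_of_nonneg_right _ hl3.le
      nlinarith
    have e4 : θ * (2 * η) ≤ (1 - θ) * (2 * η * Real.log (η / r)) := by nlinarith
    have e5 : (1 - θ) * m ≤ (1 - θ) * (ε₁ + r / 2 + 2 * η * Real.log (η / r)) := by nlinarith
    exact le_of_mul_le_mul_left e5 (by linarith)
  obtain ⟨a, haS, hab⟩ := exists_lt_of_csInf_lt (s := S) ⟨_, hne⟩
    (show sInf S < b by rw [← hm]; linarith)
  exact HB.mono hG hab.le haS.2

end

end Pool.Agent.H61.GLH
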